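import Pool.Agent.N20.EW.Stm

/-!
# C1: the number of irreducible characters of a cyclic extension
-/

set_option autoImplicit false

open scoped Classical BigOperators

namespace Pool.Agent.N97.EW

open Pool.Agent.Y63.NV
open Pool.Agent.N20.EW

/-- from inequalities for all fibres and the equality of the totals to the equality for all fibres -/
theorem c1_comb {Φ Χ F : Type} [Finite Φ] [Finite Χ] (cφ : Φ → F) (cχ : Χ → F) (w : Φ → ℕ) (L : ℕ)
    (hle : ∀ c, ∑ᶠ φ : {φ : Φ // cφ φ = c}, w φ.1 ≤ L * Nat.card {χ : Χ // cχ χ = c})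
    (htot : ∑ᶠ φ, w φ = L * Nat.card Χ) (c : F) :
    ∑ᶠ φ : {φ : Φ // cφ φ = c}, w φ.1 = L * Nat.card {χ : Χ // cχ χ = c} := by
  have := Fintype.ofFinite Φ
  have := Fintype.ofFinite Χ
  have hL : ∀ c, ∑ᶠ φ : {φ : Φ // cφ φ = c}, w φ.1 = ∑ φ ∈ Finset.univ.filter (fun φ => cφ φ = c), w φ := by
    intro c
    rw [finsum_eq_sum_of_fintype]
    exact (Finset.sum_subtype _ (fun x => by simp) _).symm
  have hR : ∀ c, Nat.card {χ : Χ // cχ χ = c} = (Finset.univ.filter (fun χ => cχ χ = c)).card := by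
    intro c
    rw [Nat.card_eq_fintype_card, Fintype.card_subtype]
  simp only [hL, hR] at hle ⊢
  rw [finsum_eq_sum_of_fintype, Nat.card_eq_fintype_card] at htot
  obtain ⟨C, hC⟩ : ∃ C : Finset F, C = insert c (Finset.univ.image cφ ∪ Finset.univ.image cχ) := ⟨_, rfl⟩
  have h1 : ∑ c ∈ C, ∑ φ ∈ Finset.univ.filter (fun φ => cφ φ = c), w φ = ∑ φ, w φ := by
    refine Finset.sum_fiberwise_of_maps_to (fun φ _ => ?_) _
    rw [hC]
    exact Finset.mem_insert_of_mem (Finset.mem_union_left _ (Finset.mem_image_of_mem _ (Finset.mem_univ _)))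
  have h2 : ∑ c ∈ C, (Finset.univ.filter (fun χ => cχ χ = c)).card = Fintype.card Χ := by
    rw [← Finset.card_univ]
    refine (Finset.card_eq_sum_card_fiberwise (fun χ _ => ?_)).symm
    rw [hC, Finset.mem_coe]
    exact Finset.mem_insert_of_mem (Finset.mem_union_right _ (Finset.mem_image_of_mem _ (Finset.mem_univ _)))
  have h3 : ∑ c ∈ C, ∑ φ ∈ Finset.univ.filter (fun φ => cφ φ = c), w φ =
      ∑ c ∈ C, L * (Finset.univ.filter (fun χ => cχ χ = c)).card := by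
    rw [h1, ← Finset.mul_sum, h2]
    exact htot
  have h4 := (Finset.sum_eq_sum_iff_of_le (fun c _ => hle c)).1 h3
  exact h4 c (by rw [hC]; exact Finset.mem_insert_self _ _)

/-- the scalar by which a class function acts -/
theorem c1_scalar (hs : S_SCHUR) {F : Type} [Field F] [IsAlgClosed F] {N : Type} [Group N] [Finite N]
    (f : N → F) (hf : IsClassFun f) : ∃ cf : {φ : N → F // IsIrrTrace φ} → F,
      ∀ (φ : {φ : N → F // IsIrrTrace φ}) (c : F), cf φ = c ↔ ∀ x : N, ∑ᶠ g : N, f g * φ.1 (g * x) = c * φ.1 x := by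
  have h1 : ∀ φ : {φ : N → F // IsIrrTrace φ}, ∃ c0 : F, ∀ x : N, ∑ᶠ g : N, f g * φ.1 (g * x) = c0 * φ.1 x := by
    intro φ
    obtain ⟨-, B, -, hB⟩ := hs F N φ.1 φ.2
    exact ⟨B f, hB f hf⟩
  choose cf hcf using h1
  refine ⟨cf, fun φ c => ⟨fun h => ?_, fun h => ?_⟩⟩
  · rw [← h]
    exact hcf φ
  · obtain ⟨⟨x, hx⟩, -⟩ := hs F N φ.1 φ.2
    have h2 := h x
    rw [hcf φ x] at h2
    exact mul_right_cancel₀ hx h2

theorem C1 (hs : S_SCHUR) (hi : S_IRR) (h3 : S_X3) (h5 : S_X5) : S_C1 := by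
  intro p _ F _ _ _ G K _ _ _ _ i z hz c
  have hfG : Finite {φ : G → F // IsIrrTrace φ} := (hi F G).1.to_subtype
  have hfK : Finite {χ : K → F // IsIrrTrace χ} := (hi F K).1.to_subtype
  have hcl : IsClassFun (fun g : G => z (i g)) := by
    intro g x
    show z (i (g * x * g⁻¹)) = z (i x)
    rw [map_mul, map_mul, map_inv]
    exact hz.cl (i g) (i x)
  obtain ⟨cφ, hcφ⟩ := c1_scalar hs (fun g : G => z (i g)) hcl
  obtain ⟨cχ, hcχ⟩ := c1_scalar hs z hz.cl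
  have hz0 : CycExt i (0 : K → F) := ⟨hz.inj, hz.normal, hz.cyc, fun _ _ => rfl, fun _ _ => rfl⟩
  have htot := h5 p F G K i hz0
  -- the fibres
  have eG : ∀ c : F, ∑ᶠ φ : {φ : G → F // IsIrrTrace φ ∧ ∀ x : G, ∑ᶠ g : G, z (i g) * φ (g * x) = c * φ x},
      pc p (tt i φ.1) = ∑ᶠ φ : {φ : {φ : G → F // IsIrrTrace φ} // cφ φ = c}, pc p (tt i φ.1.1) := by
    intro c
    refine (finsum_eq_of_bijective
      (f := fun φ : {φ : {φ : G → F // IsIrrTrace φ} // cφ φ = c} => pc p (tt i φ.1.1))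
      (fun φ => ⟨φ.1.1, φ.1.2, (hcφ φ.1 c).1 φ.2⟩) ⟨?_, ?_⟩ fun φ => rfl).symm
    · intro φ ψ h
      have h1 := congrArg (fun t => t.1) h
      exact Subtype.ext (Subtype.ext h1)
    · intro φ
      exact ⟨⟨⟨φ.1, φ.2.1⟩, (hcφ ⟨φ.1, φ.2.1⟩ c).2 φ.2.2⟩, rfl⟩
  have eK : ∀ c : F, Lz z c = Nat.card {χ : {χ : K → F // IsIrrTrace χ} // cχ χ = c} := by
    intro c
    refine (Nat.card_congr (Equiv.ofBijective
      (fun χ : {χ : {χ : K → F // IsIrrTrace χ} // cχ χ = c} =>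
        (⟨χ.1.1, χ.1.2, (hcχ χ.1 c).1 χ.2⟩ : {φ : K → F // IsIrrTrace φ ∧
          ∀ x : K, ∑ᶠ g : K, z g * φ (g * x) = c * φ x})) ⟨?_, ?_⟩)).symm
    · intro φ ψ h
      have h1 := congrArg (fun t => t.1) h
      exact Subtype.ext (Subtype.ext h1)
    · intro φ
      exact ⟨⟨⟨φ.1, φ.2.1⟩, (hcχ ⟨φ.1, φ.2.1⟩ c).2 φ.2.2⟩, rfl⟩
  rw [eG, eK]
  refine c1_comb cφ cχ (fun φ => pc p (tt i φ.1)) i.range.index (fun c => ?_) htot c
  have h6 := h3 p F G K i z hz c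
  rw [eG, eK] at h6
  exact h6

end Pool.Agent.N97.EW
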