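import Pool.Agent.N404.LF.Stm

/-!
# Project LF, piece SPA: small sets of a random lift span few edges
-/

set_option autoImplicit false

namespace Pool.Agent.N97.LF

open Finset Classical Pool.Agent.N404.LF

/-! ### Permutations which map `S` into `T` -/

/-- the permutations which map `S` into `T` -/
noncomputable def mp {N : ℕ} (S T : Finset (Fin N)) : Finset (Equiv.Perm (Fin N)) :=
  univ.filter fun π => ∀ a ∈ S, π a ∈ T

lemma pre_card {N : ℕ} (S T : Finset (Fin N)) (π : Equiv.Perm (Fin N)) (h : π ∈ mp S T) :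
    (univ.filter fun y => y ∉ S ∧ π y ∈ T).card = T.card - S.card := by
  have h1 : (univ.filter fun y => y ∉ S ∧ π y ∈ T) = (T.map π.symm.toEmbedding) \ S := by
    ext y
    simp only [mem_filter, mem_univ, true_and, mem_sdiff, mem_map_equiv, Equiv.symm_symm]
    tauto
  rw [h1, card_sdiff_of_subset, card_map]
  intro a ha
  rw [mem_map_equiv, Equiv.symm_symm]
  exact (mem_filter.1 h).2 a ha

lemma step {N : ℕ} (S T : Finset (Fin N)) (x : Fin N) (hx : x ∉ S) :
    (N - S.card) * (mp (insert x S) T).card ≤ (T.card - S.card) * (mp S T).card := by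
  have h1 : ((mp (insert x S) T) ×ˢ Sᶜ).card ≤
      ((mp S T).sigma fun π => univ.filter fun y => y ∉ S ∧ π y ∈ T).card := by
    apply card_le_card_of_injOn
      (fun p => (⟨p.1 * Equiv.swap x p.2, p.2⟩ : (_ : Equiv.Perm (Fin N)) × Fin N))
    · rintro ⟨π, y⟩ hp
      rw [mem_coe, mem_product] at hp
      obtain ⟨hp1, hp2⟩ := hp
      have hy : y ∉ S := mem_compl.1 hp2
      have hπ := (mem_filter.1 hp1).2
      rw [mem_coe, mem_sigma]
      refine ⟨mem_filter.2 ⟨mem_univ _, fun a ha => ?_⟩, mem_filter.2 ⟨mem_univ _, hy, ?_⟩⟩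
      · have ha1 : a ≠ x := fun h => hx (h ▸ ha)
        have ha2 : a ≠ y := fun h => hy (h ▸ ha)
        show (π * Equiv.swap x y) a ∈ T
        rw [Equiv.Perm.mul_apply, Equiv.swap_apply_of_ne_of_ne ha1 ha2]
        exact hπ a (mem_insert_of_mem ha)
      · show (π * Equiv.swap x y) y ∈ T
        rw [Equiv.Perm.mul_apply, Equiv.swap_apply_right]
        exact hπ x (mem_insert_self _ _)
    · rintro ⟨π, y⟩ _ ⟨π', y'⟩ _ h
      simp only [Sigma.mk.injEq, heq_eq_eq] at h
      obtain ⟨h1, h2⟩ := h
      subst h2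
      rw [mul_left_inj] at h1
      rw [h1]
  rw [card_product, card_compl, Fintype.card_fin, card_sigma,
    sum_congr rfl (fun π hπ => pre_card S T π hπ), sum_const, smul_eq_mul] at h1
  calc (N - S.card) * (mp (insert x S) T).card = (mp (insert x S) T).card * (N - S.card) :=
        mul_comm _ _
    _ ≤ (mp S T).card * (T.card - S.card) := h1
    _ = _ := mul_comm _ _

lemma mp_card {N : ℕ} (S T : Finset (Fin N)) :
    N ^ S.card * (mp S T).card ≤ T.card ^ S.card * N.factorial := by
  induction S using Finset.induction_on with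
  | empty =>
    have h1 : (mp (∅ : Finset (Fin N)) T).card ≤ N.factorial := by
      calc (mp (∅ : Finset (Fin N)) T).card ≤ (univ : Finset (Equiv.Perm (Fin N))).card :=
            card_le_card (filter_subset _ _)
        _ = N.factorial := by rw [card_univ, Fintype.card_perm, Fintype.card_fin]
    simpa using h1
  | insert x S hx ih =>
    rw [card_insert_of_notMem hx]
    have hSN : S.card < N := by
      have h1 : (insert x S).card ≤ N := by
        simpa using card_le_univ (insert x S)
      rw [card_insert_of_notMem hx] at h1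
      omega
    have hT : T.card ≤ N := by simpa using card_le_univ T
    have h1 := step S T x hx
    have h2 : N * (mp (insert x S) T).card ≤ T.card * (mp S T).card := by
      have h3 : N * (T.card - S.card) ≤ T.card * (N - S.card) := by
        rw [Nat.mul_sub, Nat.mul_sub, mul_comm T.card N]
        exact Nat.sub_le_sub_left (Nat.mul_le_mul_right _ hT) _
      have h4 : (N - S.card) * (N * (mp (insert x S) T).card) ≤
          (N - S.card) * (T.card * (mp S T).card) := by
        calc (N - S.card) * (N * (mp (insert x S) T).card) =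
              N * ((N - S.card) * (mp (insert x S) T).card) := by ring
          _ ≤ N * ((T.card - S.card) * (mp S T).card) := Nat.mul_le_mul_left _ h1
          _ = (N * (T.card - S.card)) * (mp S T).card := by ring
          _ ≤ (T.card * (N - S.card)) * (mp S T).card := Nat.mul_le_mul_right _ h3
          _ = _ := by ring
      exact Nat.le_of_mul_le_mul_left h4 (by omega)
    calc N ^ (S.card + 1) * (mp (insert x S) T).card =
          N ^ S.card * (N * (mp (insert x S) T).card) := by ring
      _ ≤ N ^ S.card * (T.card * (mp S T).card) := Nat.mul_le_mul_left _ h2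
      _ = T.card * (N ^ S.card * (mp S T).card) := by ring
      _ ≤ T.card * (T.card ^ S.card * N.factorial) := Nat.mul_le_mul_left _ ih
      _ = _ := by ring

/-! ### Families -/

section

variable {V I : Type} [Fintype V] [Fintype I] [DecidableEq I] (s t : I → V)

/-- the families which map `S` into `U` -/
noncomputable def fam {N : ℕ} (S : Finset (I × Fin N)) (U : Finset (V × Fin N)) :
    Finset (I → Equiv.Perm (Fin N)) :=
  univ.filter fun π => ∀ p ∈ S, (t p.1, π p.1 p.2) ∈ U

omit [Fintype V] in
lemma fam_card {N : ℕ} (S : Finset (I × Fin N)) (U : Finset (V × Fin N)) :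
    N ^ S.card * (fam t S U).card ≤ U.card ^ S.card * N.factorial ^ Fintype.card I := by
  set Sc : I → Finset (Fin N) := fun i => univ.filter fun a => (i, a) ∈ S with hSc
  set Uc : V → Finset (Fin N) := fun v => univ.filter fun b => (v, b) ∈ U with hUc
  have h1 : fam t S U = Fintype.piFinset fun i => mp (Sc i) (Uc (t i)) := by
    ext π
    simp only [fam, mp, Fintype.mem_piFinset, mem_filter, mem_univ, true_and, hSc, hUc, Prod.forall]
  have h2 : S.card = ∑ i, (Sc i).card := by
    rw [card_eq_sum_card_fiberwise (f := Prod.fst) (t := univ) (fun _ _ => mem_coe.2 (mem_univ _))]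
    refine sum_congr rfl fun i _ => ?_
    refine card_bij' (fun p _ => p.2) (fun a _ => (i, a)) ?_ ?_ ?_ ?_
    · rintro ⟨j, a⟩ h
      rw [mem_filter] at h
      obtain ⟨h3, h4⟩ := h
      dsimp only at h4 ⊢
      subst h4
      exact mem_filter.2 ⟨mem_univ _, h3⟩
    · intro a h
      exact mem_filter.2 ⟨(mem_filter.1 h).2, rfl⟩
    · rintro ⟨j, a⟩ h
      rw [mem_filter] at h
      obtain ⟨h3, h4⟩ := h
      dsimp only at h4 ⊢
      rw [h4]
    · intro a h
      rfl
  have h3 : ∀ v, (Uc v).card ≤ U.card := by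
    intro v
    refine card_le_card_of_injOn (fun b => (v, b)) ?_ ?_
    · intro b hb
      exact mem_coe.2 (mem_filter.1 (mem_coe.1 hb)).2
    · intro b _ b' _ h
      exact (Prod.mk.injEq _ _ _ _ ▸ h).2
  rw [h1, Fintype.card_piFinset, h2, ← prod_pow_eq_pow_sum, ← prod_pow_eq_pow_sum,
    ← prod_mul_distrib, ← card_univ, ← prod_const, ← prod_mul_distrib]
  refine prod_le_prod' fun i _ => ?_
  exact (mp_card (Sc i) (Uc (t i))).trans
    (Nat.mul_le_mul_right _ (Nat.pow_le_pow_left (h3 _) _))

omit [Fintype V] in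
/-- one set `U` -/
lemma one_set {N : ℕ} (U : Finset (V × Fin N)) :
    N ^ (2 * U.card) * (univ.filter fun π : I → Equiv.Perm (Fin N) =>
      2 * U.card ≤ eU s t π U).card ≤
    (2 ^ Fintype.card I) ^ U.card * U.card ^ (2 * U.card) * N.factorial ^ Fintype.card I := by
  set E : Finset (I × Fin N) := univ.filter fun p => (s p.1, p.2) ∈ U with hE
  have hEc : E.card ≤ Fintype.card I * U.card := by
    have h1 : E.card ≤ ((univ : Finset I) ×ˢ U).card := by
      refine card_le_card_of_injOn (fun p => (p.1, (s p.1, p.2))) ?_ ?_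
      · intro p hp
        exact mem_coe.2 (mem_product.2 ⟨mem_univ _, (mem_filter.1 (mem_coe.1 hp)).2⟩)
      · rintro ⟨i, a⟩ _ ⟨j, b⟩ _ h
        simp only [Prod.mk.injEq] at h
        rw [Prod.mk.injEq]
        exact ⟨h.1, h.2.2⟩
    rwa [card_product, card_univ] at h1
  have h1 : (univ.filter fun π : I → Equiv.Perm (Fin N) => 2 * U.card ≤ eU s t π U) ⊆
      (powersetCard (2 * U.card) E).biUnion fun S => fam t S U := by
    intro π hπ
    have hπ' := (mem_filter.1 hπ).2
    unfold eU at hπ'
    obtain ⟨S, hS, hSc⟩ := exists_subset_card_eq hπ'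
    rw [mem_biUnion]
    refine ⟨S, mem_powersetCard.2 ⟨fun p hp => ?_, hSc⟩, mem_filter.2 ⟨mem_univ _, fun p hp => ?_⟩⟩
    · exact mem_filter.2 ⟨mem_univ _, (mem_filter.1 (hS hp)).2.1⟩
    · exact (mem_filter.1 (hS hp)).2.2
  have h2 : (powersetCard (2 * U.card) E).card ≤ (2 ^ Fintype.card I) ^ U.card := by
    calc (powersetCard (2 * U.card) E).card ≤ E.powerset.card :=
          card_le_card fun S hS => mem_powerset.2 (mem_powersetCard.1 hS).1
      _ = 2 ^ E.card := card_powerset _
      _ ≤ 2 ^ (Fintype.card I * U.card) := Nat.pow_le_pow_right (by norm_num) hEc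
      _ = _ := pow_mul _ _ _
  calc N ^ (2 * U.card) * (univ.filter fun π : I → Equiv.Perm (Fin N) =>
        2 * U.card ≤ eU s t π U).card
      ≤ N ^ (2 * U.card) * ∑ S ∈ powersetCard (2 * U.card) E, (fam t S U).card :=
        Nat.mul_le_mul_left _ ((card_le_card h1).trans card_biUnion_le)
    _ = ∑ S ∈ powersetCard (2 * U.card) E, N ^ (2 * U.card) * (fam t S U).card := mul_sum _ _ _
    _ ≤ ∑ S ∈ powersetCard (2 * U.card) E,
          U.card ^ (2 * U.card) * N.factorial ^ Fintype.card I := by
        refine sum_le_sum fun S hS => ?_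
        have h3 := fam_card t S U
        rwa [(mem_powersetCard.1 hS).2] at h3
    _ = (powersetCard (2 * U.card) E).card *
          (U.card ^ (2 * U.card) * N.factorial ^ Fintype.card I) := by
        rw [sum_const, smul_eq_mul]
    _ ≤ (2 ^ Fintype.card I) ^ U.card * (U.card ^ (2 * U.card) * N.factorial ^ Fintype.card I) :=
        Nat.mul_le_mul_right _ h2
    _ = _ := by ring

lemma pow_self_le (u : ℕ) : u ^ u ≤ 3 ^ u * u.factorial := by
  have h1 := Real.pow_div_factorial_le_exp (x := (u : ℝ)) (Nat.cast_nonneg u) u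
  have h2 : Real.exp (u : ℝ) ≤ 3 ^ u := by
    have h3 : Real.exp (u : ℝ) = Real.exp 1 ^ u := by
      rw [← Real.exp_nat_mul, mul_one]
    rw [h3]
    refine pow_le_pow_left₀ (Real.exp_pos _).le ?_ _
    have := Real.exp_one_lt_d9
    linarith
  have h4 : (0 : ℝ) < u.factorial := by exact_mod_cast Nat.factorial_pos u
  rw [div_le_iff₀ h4] at h1
  have h5 : (u : ℝ) ^ u ≤ 3 ^ u * u.factorial :=
    h1.trans (mul_le_mul_of_nonneg_right h2 h4.le)
  exact_mod_cast h5

/-- the sets with `u` elements -/
lemma size {N : ℕ} (hN : 0 < N) (u : ℕ) :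
    N ^ u * (univ.filter fun π : I → Equiv.Perm (Fin N) => ∃ U : Finset (V × Fin N),
      U.card = u ∧ 2 * U.card ≤ eU s t π U).card ≤
    (3 * Fintype.card V * 2 ^ Fintype.card I * u) ^ u * N.factorial ^ Fintype.card I := by
  set B := (univ.filter fun π : I → Equiv.Perm (Fin N) => ∃ U : Finset (V × Fin N),
      U.card = u ∧ 2 * U.card ≤ eU s t π U).card with hB
  set M := N.factorial ^ Fintype.card I with hM
  have h1 : B ≤ ∑ U ∈ powersetCard u (univ : Finset (V × Fin N)),
      (univ.filter fun π : I → Equiv.Perm (Fin N) => 2 * U.card ≤ eU s t π U).card := by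
    rw [hB]
    refine (card_le_card ?_).trans card_biUnion_le
    intro π hπ
    obtain ⟨U, hU, hU2⟩ := (mem_filter.1 hπ).2
    rw [mem_biUnion]
    exact ⟨U, mem_powersetCard.2 ⟨subset_univ _, hU⟩, mem_filter.2 ⟨mem_univ _, hU2⟩⟩
  have h2 : N ^ (2 * u) * B ≤ (Fintype.card V * N).choose u *
      ((2 ^ Fintype.card I) ^ u * u ^ (2 * u) * M) := by
    calc N ^ (2 * u) * B ≤ N ^ (2 * u) * ∑ U ∈ powersetCard u (univ : Finset (V × Fin N)),
        (univ.filter fun π : I → Equiv.Perm (Fin N) => 2 * U.card ≤ eU s t π U).card :=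
          Nat.mul_le_mul_left _ h1
      _ = ∑ U ∈ powersetCard u (univ : Finset (V × Fin N)), N ^ (2 * u) *
        (univ.filter fun π : I → Equiv.Perm (Fin N) => 2 * U.card ≤ eU s t π U).card :=
          mul_sum _ _ _
      _ ≤ ∑ U ∈ powersetCard u (univ : Finset (V × Fin N)),
            ((2 ^ Fintype.card I) ^ u * u ^ (2 * u) * M) := by
          refine sum_le_sum fun U hU => ?_
          have h3 := one_set s t U
          rw [(mem_powersetCard.1 hU).2] at h3 ⊢
          exact h3
      _ = _ := by
          rw [sum_const, smul_eq_mul, card_powersetCard, card_univ, Fintype.card_prod,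
            Fintype.card_fin]
  have h3 : u.factorial * (Fintype.card V * N).choose u ≤ (Fintype.card V * N) ^ u := by
    rw [← Nat.descFactorial_eq_factorial_mul_choose]
    exact Nat.descFactorial_le_pow _ _
  have h4 : N ^ u * (N ^ u * B) ≤
      N ^ u * ((3 * Fintype.card V * 2 ^ Fintype.card I * u) ^ u * M) := by
    calc N ^ u * (N ^ u * B) = N ^ (2 * u) * B := by ring
      _ ≤ (Fintype.card V * N).choose u * ((2 ^ Fintype.card I) ^ u * u ^ (2 * u) * M) := h2
      _ = (Fintype.card V * N).choose u * u ^ u * ((2 ^ Fintype.card I) ^ u * u ^ u * M) := by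
          ring
      _ ≤ (Fintype.card V * N).choose u * (3 ^ u * u.factorial) *
            ((2 ^ Fintype.card I) ^ u * u ^ u * M) :=
          Nat.mul_le_mul_right _ (Nat.mul_le_mul_left _ (pow_self_le u))
      _ = (u.factorial * (Fintype.card V * N).choose u) *
            (3 ^ u * ((2 ^ Fintype.card I) ^ u * u ^ u * M)) := by ring
      _ ≤ (Fintype.card V * N) ^ u * (3 ^ u * ((2 ^ Fintype.card I) ^ u * u ^ u * M)) :=
          Nat.mul_le_mul_right _ h3
      _ = _ := by
          rw [mul_pow (Fintype.card V), mul_pow _ u, mul_pow (3 * Fintype.card V),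
            mul_pow 3 (Fintype.card V)]
          ring
  exact Nat.le_of_mul_le_mul_left h4 (pow_pos hN _)

end

/-- **SPA** -/
theorem main : S_SPA := by
  intro V I _ _ _ s t
  set K : ℕ := 3 * Fintype.card V * 2 ^ Fintype.card I with hK
  refine ⟨2 * K, fun N m hNm => ?_⟩
  rcases Nat.eq_zero_or_pos N with h0 | hN
  · subst h0
    rw [zero_mul]
    exact Nat.zero_le _
  set M := N.factorial ^ Fintype.card I with hM
  set B : ℕ → ℕ := fun u => (univ.filter fun π : I → Equiv.Perm (Fin N) =>
    ∃ U : Finset (V × Fin N), U.card = u ∧ 2 * U.card ≤ eU s t π U).card with hB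
  have h1 : (univ.filter fun π : I → Equiv.Perm (Fin N) => ∃ U : Finset (V × Fin N),
      U.Nonempty ∧ U.card ≤ m ∧ 2 * U.card ≤ eU s t π U).card ≤ ∑ j ∈ range m, B (j + 1) := by
    refine (card_le_card (t := (range m).biUnion fun j =>
      (univ.filter fun π : I → Equiv.Perm (Fin N) =>
        ∃ U : Finset (V × Fin N), U.card = j + 1 ∧ 2 * U.card ≤ eU s t π U)) ?_).trans
      card_biUnion_le
    intro π hπ
    obtain ⟨U, hU, hU1, hU2⟩ := (mem_filter.1 hπ).2
    have hU0 := card_pos.2 hU
    rw [mem_biUnion]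
    exact ⟨U.card - 1, mem_range.2 (by omega),
      mem_filter.2 ⟨mem_univ _, U, by omega, hU2⟩⟩
  have h2 : ∀ j < m, 2 ^ j * (N * B (j + 1)) ≤ K * m * M := by
    intro j hj
    have h3 := size s t hN (j + 1)
    rw [← hK, ← hM] at h3
    clear_value K M
    have h4 : (K * (j + 1)) ^ (j + 1) ≤ (K * m) * (K * m) ^ j := by
      calc (K * (j + 1)) ^ (j + 1) ≤ (K * m) ^ (j + 1) :=
            Nat.pow_le_pow_left (Nat.mul_le_mul_left _ hj) _
        _ = _ := by ring
    have h5 : N ^ j * (2 ^ j * (N * B (j + 1))) ≤ N ^ j * (K * m * M) := by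
      calc N ^ j * (2 ^ j * (N * B (j + 1))) = 2 ^ j * (N ^ (j + 1) * B (j + 1)) := by ring
        _ ≤ 2 ^ j * ((K * (j + 1)) ^ (j + 1) * M) := Nat.mul_le_mul_left _ h3
        _ ≤ 2 ^ j * ((K * m) * (K * m) ^ j * M) :=
            Nat.mul_le_mul_left _ (Nat.mul_le_mul_right _ h4)
        _ = (2 * K * m) ^ j * (K * m * M) := by
            rw [show 2 * K * m = 2 * (K * m) by ring, mul_pow 2 (K * m) j]
            ring
        _ ≤ N ^ j * (K * m * M) := Nat.mul_le_mul_right _ (Nat.pow_le_pow_left hNm _)
    exact Nat.le_of_mul_le_mul_left h5 (pow_pos hN _)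
  have h3 : (N : ℝ) * ∑ j ∈ range m, (B (j + 1) : ℝ) ≤ 2 * K * m * M := by
    rw [mul_sum]
    calc ∑ j ∈ range m, (N : ℝ) * B (j + 1) ≤ ∑ j ∈ range m, ((K : ℝ) * m * M) * (1 / 2) ^ j := by
          refine sum_le_sum fun j hj => ?_
          have h4 : (2 : ℝ) ^ j * (N * B (j + 1)) ≤ K * m * M := by
            exact_mod_cast h2 j (mem_range.1 hj)
          have h5 : (0 : ℝ) < 2 ^ j := by positivity
          rw [one_div, inv_pow, ← div_eq_mul_inv, le_div_iff₀ h5]
          linarith
      _ = ((K : ℝ) * m * M) * ∑ j ∈ range m, (1 / 2 : ℝ) ^ j := by rw [mul_sum]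
      _ ≤ ((K : ℝ) * m * M) * 2 := by
          refine mul_le_mul_of_nonneg_left ?_ (by positivity)
          have h6 := Summable.sum_le_tsum (f := fun j : ℕ => (1 / 2 : ℝ) ^ j) (range m)
            (fun i _ => by positivity) summable_geometric_two
          rwa [tsum_geometric_two] at h6
      _ = 2 * K * m * M := by ring
  have h4 : N * ∑ j ∈ range m, B (j + 1) ≤ 2 * K * m * M := by exact_mod_cast h3
  exact (Nat.mul_le_mul_left _ h1).trans h4

end Pool.Agent.N97.LF
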