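import Mathlib
import Pool.Agent.H373R2.NB.Weyl
import Pool.Agent.N604.MW.Stm

/-!
# Project MW (metric Waring), piece WEYL: a large exponential sum gives rational approximations to
the first two coefficients
-/

set_option autoImplicit false

namespace Pool.Agent.N97.MW

open Finset
open Pool.Agent.Helper602.MK (ee)
open Pool.Agent.Helper602.MK.N_J5b (ee_add norm_ee ee_int)
open Pool.Agent.H373R2.NB (Ph IW IW_all)
open Pool.Agent.N604.MW (e S_WEYL)

lemma e_eq (x : ℝ) : e x = ee x := rfl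

lemma norm_ee_sub_one (x : ℝ) : ‖ee x - 1‖ ≤ 2 * Real.pi * |x| := by
  have h := Real.norm_exp_I_mul_ofReal_sub_one_le (x := 2 * Real.pi * x)
  have e1 : Complex.I * ((2 * Real.pi * x : ℝ) : ℂ) = 2 * Real.pi * x * Complex.I := by
    push_cast; ring
  rw [e1] at h
  refine h.trans (le_of_eq ?_)
  rw [Real.norm_eq_abs, abs_mul, abs_of_pos (by positivity : 0 < 2 * Real.pi)]

open Polynomial in
lemma taylor_top (d : ℕ) (f : ℝ[X]) (hf : f.natDegree ≤ d + 1) (h : ℝ) (j : ℕ) (hj : d ≤ j) :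
    (taylor h f).coeff j =
      f.coeff j + (if j = d then ((d : ℝ) + 1) * f.coeff (d + 1) * h else 0) := by
  rw [taylor_coeff]
  have h1 : (hasseDeriv j f).natDegree < 2 := by
    have := natDegree_hasseDeriv_le f j
    omega
  rw [eval_eq_sum_range' h1, sum_range_succ, sum_range_succ, sum_range_zero, hasseDeriv_coeff,
    hasseDeriv_coeff]
  rcases eq_or_ne j d with h2 | h2
  · subst h2
    rw [if_pos rfl, zero_add, zero_add, Nat.choose_self, add_comm 1 j,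
      Nat.choose_succ_self_right]
    push_cast
    ring
  · rw [if_neg h2]
    have h3 : f.coeff (1 + j) = 0 := coeff_eq_zero_of_natDegree_lt (by omega)
    rw [h3, zero_add, zero_add, Nat.choose_self]
    push_cast
    ring

open Polynomial in
lemma Ph_real (d : ℕ) : ∀ f : ℝ[X], f.natDegree ≤ d →
    Ph d ((d.factorial : ℝ) * f.coeff d) (fun n => f.eval (n : ℝ)) := by
  induction d with
  | zero =>
    intro f hf n
    have h1 : f = C (f.coeff 0) := eq_C_of_natDegree_le_zero hf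
    show f.eval (n : ℝ) = _
    conv_lhs => rw [h1]
    rw [eval_C]
    simp
  | succ d ih =>
    intro f hf h
    set g : ℝ[X] := taylor (h : ℝ) f - f with hg
    have hgd : g.natDegree ≤ d := by
      rw [natDegree_le_iff_coeff_eq_zero]
      intro j hj
      rw [hg, coeff_sub, taylor_top d f hf _ j (by omega), if_neg (by omega)]
      ring
    have hgc : g.coeff d = ((d : ℝ) + 1) * f.coeff (d + 1) * h := by
      rw [hg, coeff_sub, taylor_top d f hf _ d le_rfl, if_pos rfl]; ring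
    have h1 := ih g hgd
    have h2 : (fun n : ℕ => g.eval (n : ℝ)) = fun n : ℕ =>
        f.eval (((n + h : ℕ)) : ℝ) - f.eval (n : ℝ) := by
      funext n
      rw [hg, eval_sub, taylor_eval]
      push_cast
      ring
    have h3 : (d.factorial : ℝ) * g.coeff d =
        (h : ℝ) * (((d + 1).factorial : ℝ) * f.coeff (d + 1)) := by
      rw [hgc, Nat.factorial_succ]; push_cast; ring
    rw [h2, h3] at h1
    exact h1

/-! ### Averaging over an arithmetic progression -/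

lemma shift_le (g : ℕ → ℂ) (hg : ∀ n, ‖g n‖ ≤ 1) (L s : ℕ) :
    ‖∑ n ∈ range L, g n - ∑ n ∈ range L, g (n + s)‖ ≤ 2 * s := by
  have h1 : ∑ n ∈ range (L + s), g n = ∑ n ∈ range L, g n + ∑ n ∈ range s, g (L + n) :=
    sum_range_add g L s
  have h2 : ∑ n ∈ range (s + L), g n = ∑ n ∈ range s, g n + ∑ n ∈ range L, g (s + n) :=
    sum_range_add g s L
  rw [add_comm s L] at h2
  have h3 : ∑ n ∈ range L, g (s + n) = ∑ n ∈ range L, g (n + s) :=
    sum_congr rfl fun n _ => by rw [add_comm]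
  have h4 : ∑ n ∈ range L, g n - ∑ n ∈ range L, g (n + s) =
      ∑ n ∈ range s, g n - ∑ n ∈ range s, g (L + n) := by
    rw [← h3]
    linear_combination h2 - h1
  rw [h4]
  have h5 : ‖∑ n ∈ range s, g n‖ ≤ s := by
    refine (norm_sum_le _ _).trans ((sum_le_sum fun n _ => hg n).trans ?_)
    simp
  have h6 : ‖∑ n ∈ range s, g (L + n)‖ ≤ s := by
    refine (norm_sum_le _ _).trans ((sum_le_sum fun n _ => hg (L + n)).trans ?_)
    simp
  refine (norm_sub_le _ _).trans ?_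
  linarith

lemma avg (g : ℕ → ℂ) (hg : ∀ n, ‖g n‖ ≤ 1) (L D T : ℕ) :
    (T : ℝ) * ‖∑ n ∈ range L, g n‖ ≤
      ∑ n ∈ range L, ‖∑ t ∈ range T, g (n + D * t)‖ + T * (2 * (D * T)) := by
  have h1 : (T : ℝ) * ‖∑ n ∈ range L, g n‖ = ‖∑ t ∈ range T, ∑ n ∈ range L, g n‖ := by
    rw [sum_const, card_range, nsmul_eq_mul, norm_mul]
    simp
  have h2 : ∑ t ∈ range T, ∑ n ∈ range L, g n =
      ∑ n ∈ range L, ∑ t ∈ range T, g (n + D * t) +
        ∑ t ∈ range T, (∑ n ∈ range L, g n - ∑ n ∈ range L, g (n + D * t)) := by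
    rw [sum_comm (s := range L), ← sum_add_distrib]
    exact sum_congr rfl fun t _ => by ring
  rw [h1, h2]
  refine (norm_add_le _ _).trans (add_le_add (norm_sum_le _ _) ?_)
  refine (norm_sum_le _ _).trans ?_
  calc ∑ t ∈ range T, ‖∑ n ∈ range L, g n - ∑ n ∈ range L, g (n + D * t)‖
      ≤ ∑ t ∈ range T, (2 * (D * T) : ℝ) := by
        refine sum_le_sum fun t ht => ?_
        refine (shift_le g hg L (D * t)).trans ?_
        have : (t : ℝ) ≤ T := by exact_mod_cast (mem_range.1 ht).le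
        push_cast
        gcongr
    _ = T * (2 * (D * T)) := by rw [sum_const, card_range, nsmul_eq_mul]

/-- a large sum contains a large sum over an arithmetic progression -/
lemma prog (g : ℕ → ℂ) (hg : ∀ n, ‖g n‖ ≤ 1) (L D T C0 X : ℕ) (u : ℝ) (hC0 : 1 ≤ C0) (hT : 1 ≤ T)
    (hu : 1 ≤ u) (hX : 1 ≤ X) (hL : L ≤ C0 * X) (hS : (X : ℝ) ≤ u * ‖∑ n ∈ range L, g n‖)
    (hD : 4 * u * (D * T) ≤ X) :
    ∃ n < L, (T : ℝ) ≤ 2 * C0 * u * ‖∑ t ∈ range T, g (n + D * t)‖ := by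
  by_contra hcon
  push Not at hcon
  have h1 := avg g hg L D T
  have hX0 : (0 : ℝ) < X := by exact_mod_cast hX
  have hT0 : (0 : ℝ) < T := by exact_mod_cast hT
  have hC : (1 : ℝ) ≤ C0 := by exact_mod_cast hC0
  have hL0 : 0 < L := by
    rcases Nat.eq_zero_or_pos L with h | h
    · subst h
      rw [range_zero, sum_empty, norm_zero, mul_zero] at hS
      linarith
    · exact h
  have h2 : ∑ n ∈ range L, 2 * C0 * u * ‖∑ t ∈ range T, g (n + D * t)‖ <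
      ∑ n ∈ range L, (T : ℝ) :=
    sum_lt_sum_of_nonempty ⟨0, mem_range.2 hL0⟩ fun n hn => hcon n (mem_range.1 hn)
  rw [← mul_sum, sum_const, card_range, nsmul_eq_mul] at h2
  have h3 : (L : ℝ) ≤ C0 * X := by exact_mod_cast hL
  set Sg := ∑ n ∈ range L, ‖∑ t ∈ range T, g (n + D * t)‖ with hSg
  have h4 : (T : ℝ) * X ≤ u * (Sg + T * (2 * (D * T))) := by
    calc (T : ℝ) * X ≤ T * (u * ‖∑ n ∈ range L, g n‖) := mul_le_mul_of_nonneg_left hS hT0.le
      _ = u * (T * ‖∑ n ∈ range L, g n‖) := by ring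
      _ ≤ _ := mul_le_mul_of_nonneg_left h1 (by linarith)
  have h5 : u * (T * (2 * (D * T))) ≤ T * X / 2 := by
    have := mul_le_mul_of_nonneg_left hD hT0.le
    nlinarith
  have h6 : (T : ℝ) * X ≤ 2 * (u * Sg) := by nlinarith
  have h7 : C0 * ((T : ℝ) * X) ≤ C0 * (2 * (u * Sg)) := mul_le_mul_of_nonneg_left h6 (by linarith)
  have h8 : (L : ℝ) * T ≤ C0 * X * T := mul_le_mul_of_nonneg_right h3 hT0.le
  nlinarith

/-! ### Removing the leading term -/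

open Polynomial in
/-- the phase on a progression without its leading term -/
noncomputable def gg (d : ℕ) (p : ℝ[X]) (r D : ℝ) : ℝ[X] :=
  (taylor r p).comp (C D * X) - C (p.coeff (d + 1) * D ^ (d + 1)) * X ^ (d + 1)

open Polynomial in
lemma gg_deg (d : ℕ) (p : ℝ[X]) (hp : p.natDegree ≤ d + 1) (r D : ℝ) :
    (gg d p r D).natDegree ≤ d := by
  rw [natDegree_le_iff_coeff_eq_zero]
  intro j hj
  rw [gg, coeff_sub, comp_C_mul_X_coeff, coeff_C_mul, coeff_X_pow,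
    taylor_top d p hp r j (by omega), if_neg (by omega)]
  rcases eq_or_ne j (d + 1) with h | h
  · subst h
    rw [if_pos rfl]
    ring
  · rw [if_neg h, coeff_eq_zero_of_natDegree_lt (show p.natDegree < j by omega)]
    ring

open Polynomial in
lemma gg_coeff (d : ℕ) (p : ℝ[X]) (hp : p.natDegree ≤ d + 1) (r D : ℝ) :
    (gg d p r D).coeff d = (p.coeff d + ((d : ℝ) + 1) * p.coeff (d + 1) * r) * D ^ d := by
  rw [gg, coeff_sub, comp_C_mul_X_coeff, coeff_C_mul, coeff_X_pow,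
    taylor_top d p hp r d le_rfl, if_pos rfl, if_neg (by omega)]
  ring

open Polynomial in
lemma gg_eval (d : ℕ) (p : ℝ[X]) (r D t : ℝ) :
    (gg d p r D).eval t = p.eval (r + D * t) - p.coeff (d + 1) * D ^ (d + 1) * t ^ (d + 1) := by
  rw [gg, eval_sub, eval_comp, eval_mul, eval_C, eval_X, taylor_eval, eval_mul, eval_C, eval_pow,
    eval_X]
  congr 2
  ring

lemma ee_near (x y : ℝ) (n : ℤ) (h : x = n + y) : ‖ee x - 1‖ ≤ 2 * Real.pi * |y| := by
  rw [h, ee_add, ee_int, one_mul]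
  exact norm_ee_sub_one y

open Polynomial in
/-- the sum without the leading term -/
lemma perturb (d : ℕ) (p : ℝ[X]) (r : ℝ) (D T : ℕ) (a : ℤ) (K : ℝ) (hK : 1 ≤ K)
    (h : (D : ℝ) ^ d * |D * p.coeff (d + 1) - a| * (T : ℝ) ^ (d + 1) ≤ 1 / (50 * K))
    (hS : (T : ℝ) ≤ K * ‖∑ t ∈ range T, ee (p.eval (r + D * t))‖) :
    (T : ℝ) ≤ 2 * K * ‖∑ t ∈ range T, ee ((gg d p r D).eval (t : ℝ))‖ := by
  have h1 : ∀ t ∈ range T, ‖ee (p.eval (r + D * t)) - ee ((gg d p r D).eval (t : ℝ))‖ ≤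
      1 / (2 * K) := by
    intro t ht
    have htT : (t : ℝ) ≤ T := by exact_mod_cast (mem_range.1 ht).le
    have e1 : p.eval (r + D * t) = (gg d p r D).eval (t : ℝ) +
        p.coeff (d + 1) * (D : ℝ) ^ (d + 1) * (t : ℝ) ^ (d + 1) := by
      rw [gg_eval]; ring
    have e2 : ee (p.eval (r + D * t)) - ee ((gg d p r D).eval (t : ℝ)) =
        ee ((gg d p r D).eval (t : ℝ)) *
          (ee (p.coeff (d + 1) * (D : ℝ) ^ (d + 1) * (t : ℝ) ^ (d + 1)) - 1) := by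
      rw [e1, ee_add]; ring
    rw [e2, norm_mul, norm_ee, one_mul]
    have h2 := ee_near (p.coeff (d + 1) * (D : ℝ) ^ (d + 1) * (t : ℝ) ^ (d + 1))
      ((D : ℝ) ^ d * (D * p.coeff (d + 1) - a) * (t : ℝ) ^ (d + 1))
      ((D : ℤ) ^ d * a * (t : ℤ) ^ (d + 1)) (by push_cast; ring)
    refine h2.trans ?_
    rw [abs_mul, abs_mul, abs_of_nonneg (by positivity : (0 : ℝ) ≤ (D : ℝ) ^ d),
      abs_of_nonneg (by positivity : (0 : ℝ) ≤ (t : ℝ) ^ (d + 1))]
    have h3 : (D : ℝ) ^ d * |D * p.coeff (d + 1) - a| * (t : ℝ) ^ (d + 1) ≤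
        (D : ℝ) ^ d * |D * p.coeff (d + 1) - a| * (T : ℝ) ^ (d + 1) := by
      gcongr
    have h4 := h3.trans h
    have hpi := Real.pi_lt_four
    have hpi0 := Real.pi_pos
    calc 2 * Real.pi * ((D : ℝ) ^ d * |D * p.coeff (d + 1) - a| * (t : ℝ) ^ (d + 1))
        ≤ 2 * Real.pi * (1 / (50 * K)) := by gcongr
      _ ≤ 2 * 4 * (1 / (50 * K)) := by gcongr
      _ ≤ 1 / (2 * K) := by
          rw [mul_one_div, div_le_div_iff₀ (by linarith) (by linarith)]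
          linarith
  have h2 : ‖∑ t ∈ range T, ee (p.eval (r + D * t)) -
      ∑ t ∈ range T, ee ((gg d p r D).eval (t : ℝ))‖ ≤ T * (1 / (2 * K)) := by
    rw [← sum_sub_distrib]
    refine (norm_sum_le _ _).trans ((sum_le_sum h1).trans ?_)
    rw [sum_const, card_range, nsmul_eq_mul]
  have h3 := norm_sub_norm_le (∑ t ∈ range T, ee (p.eval (r + D * t)))
    (∑ t ∈ range T, ee ((gg d p r D).eval (t : ℝ)))
  have h4 : K * (T * (1 / (2 * K))) = T / 2 := by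
    field_simp
  have h5 : K * (‖∑ t ∈ range T, ee (p.eval (r + D * t))‖ -
      ‖∑ t ∈ range T, ee ((gg d p r D).eval (t : ℝ))‖) ≤ K * (T * (1 / (2 * K))) :=
    mul_le_mul_of_nonneg_left (h3.trans h2) (by linarith)
  rw [h4] at h5
  nlinarith

open Polynomial in
/-- a combination of the first two coefficients -/
lemma core1 (d : ℕ) (c2 m2 : ℕ) (hc2 : 1 ≤ c2)
    (H2 : ∀ (N : ℕ) (u α : ℝ) (φ : ℕ → ℝ), 1 ≤ N → 1 ≤ u → Ph d α φ →
      (N : ℝ) ≤ u * ‖∑ n ∈ range N, ee (φ n)‖ →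
      ∃ q : ℕ, 1 ≤ q ∧ (q : ℝ) ≤ c2 * u ^ m2 ∧ ∃ a : ℤ, |q * α - a| ≤ c2 * u ^ m2 / (N : ℝ) ^ d)
    (p : ℝ[X]) (hp : p.natDegree ≤ d + 1) (C0 X A L : ℕ) (hC0 : 1 ≤ C0) (hX : 1 ≤ X)
    (hAL : A + L ≤ C0 * X) (u W V : ℝ) (hu : 1 ≤ u) (hW : 1 ≤ W) (hV : V = 100 * C0 * u * W)
    (hVX : V ≤ X) (D : ℕ) (hDW : (D : ℝ) ≤ W) (a : ℤ)
    (ha : |D * p.coeff (d + 1) - a| ≤ W / (X : ℝ) ^ (d + 1))
    (hS : (X : ℝ) ≤ u * ‖∑ n ∈ range L, ee (p.eval ((A : ℝ) + n))‖) :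
    ∃ r q2 : ℕ, r ≤ C0 * X ∧ 1 ≤ q2 ∧ (q2 : ℝ) ≤ c2 * (4 * C0 * u) ^ m2 ∧
      ∃ b : ℤ, |q2 * (d.factorial * ((p.coeff d + ((d : ℝ) + 1) * p.coeff (d + 1) * r) *
        (D : ℝ) ^ d)) - b| ≤ c2 * (4 * C0 * u) ^ m2 * (2 * V) ^ d / (X : ℝ) ^ d := by
  have hX0 : (0 : ℝ) < X := by exact_mod_cast hX
  have hC : (1 : ℝ) ≤ C0 := by exact_mod_cast hC0
  have hu0 : 0 < u := by linarith
  have hW0 : 0 < W := by linarith
  have hV0 : 0 < V := by rw [hV]; positivity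
  have hCu : 1 ≤ C0 * u := one_le_mul_of_one_le_of_one_le hC hu
  have hVW : 100 * (C0 * u) * W ≤ V := by rw [hV]; linarith
  have hWV : W ≤ V := by nlinarith
  -- the length of the progressions
  obtain ⟨T, hTdef⟩ : ∃ T : ℕ, T = ⌊(X : ℝ) / V⌋₊ := ⟨_, rfl⟩
  have hXV : 1 ≤ (X : ℝ) / V := by rwa [le_div_iff₀ hV0, one_mul]
  have hT1 : 1 ≤ T := by
    rw [hTdef]; exact Nat.le_floor (by simpa using hXV)
  have hTle : (T : ℝ) ≤ X / V := by
    rw [hTdef]; exact Nat.floor_le (by positivity)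
  have hTge : (X : ℝ) ≤ (2 * V) * T := by
    have h1 : (X : ℝ) / V < T + 1 := by rw [hTdef]; exact Nat.lt_floor_add_one _
    have h2 : (1 : ℝ) ≤ T := by exact_mod_cast hT1
    rw [div_lt_iff₀ hV0] at h1
    nlinarith
  have hT0 : (0 : ℝ) < T := by exact_mod_cast hT1
  have hTV : (T : ℝ) * V ≤ X := by rwa [le_div_iff₀ hV0] at hTle
  -- a large sum over a progression
  have hDT : 4 * u * ((D : ℝ) * T) ≤ X := by
    have h1 : 4 * u * (D : ℝ) ≤ V := by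
      have h2 : u * (D : ℝ) ≤ u * W := mul_le_mul_of_nonneg_left hDW hu0.le
      have h3 : u * W ≤ C0 * (u * W) := le_mul_of_one_le_left (by positivity) hC
      rw [hV]
      nlinarith [mul_pos hu0 hW0]
    have h2 := mul_le_mul_of_nonneg_left h1 hT0.le
    nlinarith
  obtain ⟨n0, hn0, hprog⟩ := prog (fun n => ee (p.eval ((A : ℝ) + n)))
    (fun n => (norm_ee _).le) L D T C0 X u hC0 hT1 hu hX (by omega) hS hDT
  set r : ℝ := ((A + n0 : ℕ) : ℝ) with hrdef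
  have hprog' : (T : ℝ) ≤ 2 * C0 * u * ‖∑ t ∈ range T, ee (p.eval (r + D * t))‖ := by
    refine hprog.trans (le_of_eq ?_)
    congr 2
    refine sum_congr rfl fun t _ => ?_
    congr 2
    rw [hrdef]
    push_cast
    ring
  -- remove the leading term
  have hη : (D : ℝ) ^ d * |D * p.coeff (d + 1) - a| * (T : ℝ) ^ (d + 1) ≤
      1 / (50 * (2 * C0 * u)) := by
    calc (D : ℝ) ^ d * |D * p.coeff (d + 1) - a| * (T : ℝ) ^ (d + 1)
        ≤ W ^ d * (W / (X : ℝ) ^ (d + 1)) * (X / V) ^ (d + 1) := by gcongr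
      _ = (W / V) ^ (d + 1) := by
          rw [div_pow, div_pow]
          field_simp
          ring
      _ ≤ W / V := by
          refine pow_le_of_le_one (by positivity) ?_ (by omega)
          rw [div_le_one hV0]; exact hWV
      _ = 1 / (50 * (2 * C0 * u)) := by
          rw [hV]
          field_simp
          norm_num
  have hpert := perturb d p r D T a (2 * C0 * u) (by nlinarith) hη hprog'
  -- the second coefficient
  obtain ⟨q2, hq2, hq2le, b, hb⟩ := H2 T (4 * C0 * u) _ _ hT1 (by nlinarith)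
    (Ph_real d (gg d p r D) (gg_deg d p hp r D)) (by
      refine hpert.trans (le_of_eq ?_)
      ring)
  rw [gg_coeff d p hp r D] at hb
  refine ⟨A + n0, q2, by omega, hq2, hq2le, b, hb.trans ?_⟩
  have hG0 : 0 ≤ c2 * (4 * C0 * u) ^ m2 := by positivity
  rw [div_le_div_iff₀ (by positivity) (by positivity)]
  have h3 : (X : ℝ) ^ d ≤ ((2 * V) * T) ^ d := pow_le_pow_left₀ hX0.le hTge _
  rw [mul_pow] at h3
  calc c2 * (4 * C0 * u) ^ m2 * (X : ℝ) ^ d ≤
        c2 * (4 * C0 * u) ^ m2 * ((2 * V) ^ d * (T : ℝ) ^ d) := mul_le_mul_of_nonneg_left h3 hG0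
    _ = _ := by ring

/-- the elimination -/
lemma elim (d' C0 X : ℕ) (hX : 1 ≤ X) (W V G αk αd : ℝ) (hC : (1 : ℝ) ≤ C0)
    (hW : 1 ≤ W) (hWV : W ≤ V) (hCV : C0 * W ≤ V) (hG1 : 1 ≤ G)
    (D : ℕ) (hD1 : 1 ≤ D) (hDW : (D : ℝ) ≤ W) (a : ℤ)
    (ha : |D * αk - a| ≤ W / (X : ℝ) ^ (d' + 1 + 1)) (r q2 : ℕ) (hr : r ≤ C0 * X) (hq2 : 1 ≤ q2)
    (hq2le : (q2 : ℝ) ≤ G) (b : ℤ) (F F1 : ℕ) (hf1 : 1 ≤ F1) (hfm : F1 ≤ F)
    (hfs : (F : ℝ) = ((d' : ℝ) + 1 + 1) * F1)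
    (hb : |q2 * (F1 * ((αd + (((d' + 1 : ℕ) : ℝ) + 1) * αk * r) * (D : ℝ) ^ (d' + 1))) - b| ≤
      G * (2 * V) ^ (d' + 1) / (X : ℝ) ^ (d' + 1)) :
    ∃ q : ℕ, 1 ≤ q ∧ (q : ℝ) ≤ G * (2 ^ (d' + 1 + 1) + F) * V ^ (d' + 1 + 1) ∧
      (∃ a : ℤ, |q * αk - a| ≤
        G * (2 ^ (d' + 1 + 1) + F) * V ^ (d' + 1 + 1) / (X : ℝ) ^ (d' + 1 + 1)) ∧
      ∃ b : ℤ, |q * αd - b| ≤
        G * (2 ^ (d' + 1 + 1) + F) * V ^ (d' + 1 + 1) / (X : ℝ) ^ (d' + 1) := by
  have hX0 : (0 : ℝ) < X := by exact_mod_cast hX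
  have hW0 : 0 < W := by linarith
  have hV0 : 0 < V := by linarith
  have hG0 : 0 < G := by linarith
  have hF1 : (1 : ℝ) ≤ F1 := by exact_mod_cast hf1
  have hFF : (F1 : ℝ) ≤ F := by exact_mod_cast hfm
  have hF0 : (0 : ℝ) ≤ F := by linarith
  have hr' : (r : ℝ) ≤ C0 * X := by exact_mod_cast hr
  obtain ⟨q3, hq3⟩ : ∃ q3 : ℕ, q3 = q2 * F1 * D ^ (d' + 1) := ⟨_, rfl⟩
  have hq3' : (q3 : ℝ) = q2 * F1 * D ^ (d' + 1) := by rw [hq3]; push_cast; ring
  have hq3W : (q3 : ℝ) ≤ G * F * W ^ (d' + 1) := by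
    rw [hq3']
    have h1 : (D : ℝ) ^ (d' + 1) ≤ W ^ (d' + 1) := pow_le_pow_left₀ (Nat.cast_nonneg _) hDW _
    exact mul_le_mul (mul_le_mul hq2le hFF (by positivity) hG0.le) h1 (by positivity)
      (by positivity)
  have hq31 : 1 ≤ q3 := by
    rw [hq3]
    exact Nat.mul_pos (Nat.mul_pos hq2 hf1) (pow_pos hD1 _)
  -- the powers
  have hpow : W * (G * F * W ^ (d' + 1)) ≤
      G * (2 ^ (d' + 1 + 1) + F) * V ^ (d' + 1 + 1) := by
    have h1 : W ^ (d' + 1 + 1) ≤ V ^ (d' + 1 + 1) := pow_le_pow_left₀ hW0.le hWV _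
    have h2 : (0 : ℝ) ≤ 2 ^ (d' + 1 + 1) := by positivity
    calc W * (G * F * W ^ (d' + 1)) = G * F * W ^ (d' + 1 + 1) := by ring
      _ ≤ G * F * V ^ (d' + 1 + 1) := mul_le_mul_of_nonneg_left h1 (by positivity)
      _ ≤ _ := mul_le_mul_of_nonneg_right (mul_le_mul_of_nonneg_left (by linarith) hG0.le)
          (by positivity)
  refine ⟨D * q3, Nat.mul_pos hD1 hq31, ?_, ⟨q3 * a, ?_⟩,
    ⟨D * (b - q2 * F * r * D ^ d' * a), ?_⟩⟩
  · push_cast
    exact (mul_le_mul hDW hq3W (by positivity) hW0.le).trans hpow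
  · have e1 : ((D * q3 : ℕ) : ℝ) * αk - ((q3 * a : ℤ) : ℝ) = q3 * (D * αk - a) := by
      push_cast; ring
    rw [e1, abs_mul, abs_of_nonneg (Nat.cast_nonneg _ : (0 : ℝ) ≤ q3)]
    calc (q3 : ℝ) * |D * αk - a| ≤
          (G * F * W ^ (d' + 1)) * (W / (X : ℝ) ^ (d' + 1 + 1)) :=
          mul_le_mul hq3W ha (abs_nonneg _) (by positivity)
      _ = W * (G * F * W ^ (d' + 1)) / (X : ℝ) ^ (d' + 1 + 1) := by ring
      _ ≤ _ := div_le_div_of_nonneg_right hpow (by positivity)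
  · obtain ⟨η, hηdef⟩ : ∃ η : ℝ, η = D * αk - a := ⟨_, rfl⟩
    rw [← hηdef] at ha
    obtain ⟨z, hz⟩ : ∃ z : ℝ, z = q2 * (F1 * ((αd + (((d' + 1 : ℕ) : ℝ) + 1) * αk * r) *
            (D : ℝ) ^ (d' + 1))) - b := ⟨_, rfl⟩
    rw [← hz] at hb
    have e1 : ((D * q3 : ℕ) : ℝ) * αd - ((D * (b - q2 * F * r * D ^ d' * a) : ℤ) : ℝ) =
        D * (z - q2 * F * r * D ^ d' * η) := by
      rw [hηdef, hz]
      push_cast
      rw [hq3', hfs]
      ring
    rw [e1, abs_mul, abs_of_nonneg (Nat.cast_nonneg _ : (0 : ℝ) ≤ D)]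
    have h1 : |(q2 : ℝ) * F * r * D ^ d' * η| ≤
        G * F * (C0 * X) * W ^ d' * (W / (X : ℝ) ^ (d' + 1 + 1)) := by
      rw [abs_mul, abs_of_nonneg (by positivity : (0 : ℝ) ≤ (q2 : ℝ) * F * r * D ^ d')]
      have h6 : (D : ℝ) ^ d' ≤ W ^ d' := pow_le_pow_left₀ (Nat.cast_nonneg _) hDW _
      refine mul_le_mul ?_ ha (abs_nonneg _) (by positivity)
      refine mul_le_mul ?_ h6 (by positivity) (by positivity)
      exact mul_le_mul (mul_le_mul_of_nonneg_right hq2le hF0) hr' (by positivity) (by positivity)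
    have h4 : (C0 : ℝ) * W ^ (d' + 1 + 1) ≤ V ^ (d' + 1 + 1) := by
      have h6 : W ^ (d' + 1) ≤ V ^ (d' + 1) := pow_le_pow_left₀ hW0.le hWV _
      calc (C0 : ℝ) * W ^ (d' + 1 + 1) = (C0 * W) * W ^ (d' + 1) := by ring
        _ ≤ V * V ^ (d' + 1) := mul_le_mul hCV h6 (by positivity) hV0.le
        _ = V ^ (d' + 1 + 1) := by ring
    have h5 : (2 : ℝ) ^ (d' + 1) * (W * V ^ (d' + 1)) ≤ 2 ^ (d' + 1 + 1) * V ^ (d' + 1 + 1) := by
      calc (2 : ℝ) ^ (d' + 1) * (W * V ^ (d' + 1)) ≤ 2 ^ (d' + 1) * (V * V ^ (d' + 1)) :=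
            mul_le_mul_of_nonneg_left (mul_le_mul_of_nonneg_right hWV (by positivity))
              (by positivity)
        _ = 2 ^ (d' + 1) * V ^ (d' + 1 + 1) := by ring
        _ ≤ 2 ^ (d' + 1 + 1) * V ^ (d' + 1 + 1) :=
            mul_le_mul_of_nonneg_right (pow_le_pow_right₀ (by norm_num) (by omega))
              (by positivity)
    calc (D : ℝ) * |z - q2 * F * r * D ^ d' * η|
        ≤ W * (G * (2 * V) ^ (d' + 1) / (X : ℝ) ^ (d' + 1) +
          G * F * (C0 * X) * W ^ d' * (W / (X : ℝ) ^ (d' + 1 + 1))) := by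
          refine mul_le_mul hDW ?_ (abs_nonneg _) hW0.le
          exact (abs_sub _ _).trans (add_le_add hb h1)
      _ = G * (2 ^ (d' + 1) * (W * V ^ (d' + 1)) + F * (C0 * W ^ (d' + 1 + 1))) /
            (X : ℝ) ^ (d' + 1) := by
          rw [mul_pow, pow_succ (X : ℝ) (d' + 1)]
          field_simp
          ring
      _ ≤ G * (2 ^ (d' + 1 + 1) * V ^ (d' + 1 + 1) + F * V ^ (d' + 1 + 1)) /
            (X : ℝ) ^ (d' + 1) := by
          refine div_le_div_of_nonneg_right (mul_le_mul_of_nonneg_left ?_ hG0.le) (by positivity)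
          exact add_le_add h5 (mul_le_mul_of_nonneg_left h4 hF0)
      _ = _ := by ring

open Polynomial in
/-- the core: the first two coefficients -/
lemma core (d : ℕ) (hd : 1 ≤ d) (c2 m2 : ℕ) (hc2 : 1 ≤ c2)
    (H2 : ∀ (N : ℕ) (u α : ℝ) (φ : ℕ → ℝ), 1 ≤ N → 1 ≤ u → Ph d α φ →
      (N : ℝ) ≤ u * ‖∑ n ∈ range N, ee (φ n)‖ →
      ∃ q : ℕ, 1 ≤ q ∧ (q : ℝ) ≤ c2 * u ^ m2 ∧ ∃ a : ℤ, |q * α - a| ≤ c2 * u ^ m2 / (N : ℝ) ^ d)
    (p : ℝ[X]) (hp : p.natDegree ≤ d + 1) (C0 X A L : ℕ) (hC0 : 1 ≤ C0) (hX : 1 ≤ X)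
    (hAL : A + L ≤ C0 * X) (u W V : ℝ) (hu : 1 ≤ u) (hW : 1 ≤ W) (hV : V = 100 * C0 * u * W)
    (hVX : V ≤ X) (D : ℕ) (hD1 : 1 ≤ D) (hDW : (D : ℝ) ≤ W) (a : ℤ)
    (ha : |D * p.coeff (d + 1) - a| ≤ W / (X : ℝ) ^ (d + 1))
    (hS : (X : ℝ) ≤ u * ‖∑ n ∈ range L, ee (p.eval ((A : ℝ) + n))‖) :
    ∃ q : ℕ, 1 ≤ q ∧
      (q : ℝ) ≤ c2 * (4 * C0 * u) ^ m2 * (2 ^ (d + 1) + (d + 1).factorial) * V ^ (d + 1) ∧
      (∃ a : ℤ, |q * p.coeff (d + 1) - a| ≤
        c2 * (4 * C0 * u) ^ m2 * (2 ^ (d + 1) + (d + 1).factorial) * V ^ (d + 1) /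
          (X : ℝ) ^ (d + 1)) ∧
      ∃ b : ℤ, |q * p.coeff d - b| ≤
        c2 * (4 * C0 * u) ^ m2 * (2 ^ (d + 1) + (d + 1).factorial) * V ^ (d + 1) /
          (X : ℝ) ^ d := by
  obtain ⟨r, q2, hr, hq2, hq2le, b, hb⟩ := core1 d c2 m2 hc2 H2 p hp C0 X A L hC0 hX hAL u W V hu
    hW hV hVX D hDW a ha hS
  have hC : (1 : ℝ) ≤ C0 := by exact_mod_cast hC0
  have hu0 : 0 < u := by linarith
  have hW0 : 0 < W := by linarith
  have hCu : 1 ≤ C0 * u := one_le_mul_of_one_le_of_one_le hC hu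
  have hVW : 100 * (C0 * u) * W ≤ V := by rw [hV]; linarith
  have hWV : W ≤ V := by nlinarith
  have hCV : (C0 : ℝ) * W ≤ V := by
    have : (C0 : ℝ) * W ≤ C0 * u * W := by nlinarith [mul_pos (by linarith : (0 : ℝ) < C0) hW0]
    nlinarith
  have hc2' : (1 : ℝ) ≤ c2 := by exact_mod_cast hc2
  have hG1 : (1 : ℝ) ≤ c2 * (4 * C0 * u) ^ m2 :=
    one_le_mul_of_one_le_of_one_le hc2' (one_le_pow₀ (by nlinarith))
  obtain ⟨d', rfl⟩ : ∃ d', d = d' + 1 := ⟨d - 1, by omega⟩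
  exact elim d' C0 X hX W V _ _ _ hC hW hWV hCV hG1 D hD1 hDW a ha r q2 hr hq2 hq2le b
    (d' + 1 + 1).factorial (d' + 1).factorial
    (Nat.one_le_iff_ne_zero.2 (Nat.factorial_ne_zero _)) (Nat.factorial_le (by omega))
    (by rw [Nat.factorial_succ (d' + 1)]; push_cast; ring) hb

open Polynomial in
/-- **WEYL** -/
theorem weyl : S_WEYL := by
  intro k C0 hk
  obtain ⟨d, rfl⟩ : ∃ d, k = d + 1 := ⟨k - 1, by omega⟩
  have hd : 1 ≤ d := by omega
  obtain ⟨c1, m1, hc1, H1⟩ := IW_all (d + 1) (by omega)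
  obtain ⟨c2, m2, hc2, H2⟩ := IW_all d hd
  refine ⟨c2 * (4 * C0) ^ m2 * (2 ^ (d + 1) + (d + 1).factorial) *
    (100 * C0 * (c1 * (d + 1).factorial * C0 ^ m1)) ^ (d + 1),
    m2 + (m1 + (d + 1) + 1) * (d + 1), ?_⟩
  intro α X A L u hX hAL hu hS
  have hX0 : (0 : ℝ) < X := by exact_mod_cast hX
  have hu0 : 0 < u := by linarith
  have hL : 1 ≤ L := by
    rcases Nat.eq_zero_or_pos L with h | h
    · subst h
      rw [range_zero, sum_empty, norm_zero, mul_zero] at hS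
      linarith
    · exact h
  have hC0 : 1 ≤ C0 := by
    rcases Nat.eq_zero_or_pos C0 with h | h
    · subst h; omega
    · exact h
  have hC : (1 : ℝ) ≤ C0 := by exact_mod_cast hC0
  have hc1' : (1 : ℝ) ≤ c1 := by exact_mod_cast hc1
  have hc2' : (1 : ℝ) ≤ c2 := by exact_mod_cast hc2
  have hf1 : (1 : ℝ) ≤ (d + 1).factorial := by
    exact_mod_cast Nat.one_le_iff_ne_zero.2 (Nat.factorial_ne_zero _)
  -- the polynomial
  obtain ⟨p, hpdef⟩ : ∃ p : ℝ[X], p = ∑ j ∈ range (d + 1 + 1), C (α j) * Polynomial.X ^ j :=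
    ⟨_, rfl⟩
  have hpc : ∀ i, p.coeff i = if i < d + 1 + 1 then α i else 0 := by
    intro i
    rw [hpdef, finsetSum_coeff]
    simp only [coeff_C_mul, coeff_X_pow, mul_ite, mul_one, mul_zero]
    rw [sum_ite_eq (range (d + 1 + 1)) i]
    simp only [mem_range]
  have hp : p.natDegree ≤ d + 1 := by
    rw [natDegree_le_iff_coeff_eq_zero]
    intro j hj
    rw [hpc, if_neg (by omega)]
  have hpe : ∀ x : ℝ, p.eval x = ∑ j ∈ range (d + 1 + 1), α j * x ^ j := by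
    intro x
    rw [hpdef, eval_finsetSum]
    simp only [eval_mul, eval_C, eval_pow, eval_X]
  have hcd1 : p.coeff (d + 1) = α (d + 1) := by rw [hpc, if_pos (by omega)]
  have hcd : p.coeff d = α d := by rw [hpc, if_pos (by omega)]
  have hS' : (X : ℝ) ≤ u * ‖∑ n ∈ range L, ee (p.eval ((A : ℝ) + n))‖ := by
    refine hS.trans (le_of_eq ?_)
    congr 2
    refine sum_congr rfl fun n _ => ?_
    rw [hpe, ← e_eq]
    push_cast
    rfl
  -- the leading coefficient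
  have hLX : (L : ℝ) ≤ C0 * X := by
    have : L ≤ C0 * X := by omega
    exact_mod_cast this
  have hXL : (X : ℝ) ≤ u * L := by
    refine hS'.trans (mul_le_mul_of_nonneg_left ?_ hu0.le)
    refine (norm_sum_le _ _).trans ?_
    simp [norm_ee]
  have hL0 : (0 : ℝ) < L := by exact_mod_cast hL
  have hph := Ph_real (d + 1) (taylor (A : ℝ) p) (by rw [natDegree_taylor]; exact hp)
  rw [taylor_top d p hp (A : ℝ) (d + 1) (by omega), if_neg (by omega), add_zero, hcd1] at hph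
  obtain ⟨q1, hq1, hq1le, a, ha⟩ := H1 L (C0 * u) _ _ hL
    (one_le_mul_of_one_le_of_one_le hC hu) hph (by
      have h1 : ∑ n ∈ range L, ee ((taylor (A : ℝ) p).eval (n : ℝ)) =
          ∑ n ∈ range L, ee (p.eval ((A : ℝ) + n)) := by
        refine sum_congr rfl fun n _ => ?_
        rw [taylor_eval, add_comm]
      rw [h1]
      calc (L : ℝ) ≤ C0 * X := hLX
        _ ≤ C0 * (u * ‖∑ n ∈ range L, ee (p.eval ((A : ℝ) + n))‖) := by gcongr
        _ = _ := by ring)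
  set W : ℝ := (c1 * (d + 1).factorial * C0 ^ m1) * u ^ (m1 + (d + 1)) with hW
  set V : ℝ := 100 * C0 * u * W with hV
  have hW1 : 1 ≤ W := by
    rw [hW]
    exact one_le_mul_of_one_le_of_one_le (one_le_mul_of_one_le_of_one_le
      (one_le_mul_of_one_le_of_one_le hc1' hf1) (one_le_pow₀ hC)) (one_le_pow₀ hu)
  have hZ : ((c2 * (4 * C0) ^ m2 * (2 ^ (d + 1) + (d + 1).factorial) *
      (100 * C0 * (c1 * (d + 1).factorial * C0 ^ m1)) ^ (d + 1) : ℕ) : ℝ) *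
      u ^ (m2 + (m1 + (d + 1) + 1) * (d + 1)) =
      c2 * (4 * C0 * u) ^ m2 * (2 ^ (d + 1) + (d + 1).factorial) * V ^ (d + 1) := by
    rw [hV, hW]
    push_cast
    rw [pow_add u m2, pow_mul, mul_pow (4 * (C0 : ℝ)) u,
      show 100 * (C0 : ℝ) * u * (c1 * (d + 1).factorial * C0 ^ m1 * u ^ (m1 + (d + 1))) =
        (100 * C0 * (c1 * (d + 1).factorial * C0 ^ m1)) * u ^ (m1 + (d + 1) + 1) by ring,
      mul_pow (100 * (C0 : ℝ) * (c1 * (d + 1).factorial * C0 ^ m1))]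
    ring
  rw [hZ]
  have hV1 : 1 ≤ V := by
    rw [hV]
    have : 1 ≤ C0 * u * W :=
      one_le_mul_of_one_le_of_one_le (one_le_mul_of_one_le_of_one_le hC hu) hW1
    nlinarith
  have hG1 : 1 ≤ c2 * (4 * C0 * u) ^ m2 * (2 ^ (d + 1) + (d + 1).factorial : ℝ) := by
    refine one_le_mul_of_one_le_of_one_le
      (one_le_mul_of_one_le_of_one_le hc2' (one_le_pow₀ ?_)) ?_
    · have := one_le_mul_of_one_le_of_one_le hC hu
      nlinarith
    · have : (0 : ℝ) < 2 ^ (d + 1) := by positivity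
      linarith
  have hZV : V ^ (d + 1) ≤
      c2 * (4 * C0 * u) ^ m2 * (2 ^ (d + 1) + (d + 1).factorial) * V ^ (d + 1) :=
    le_mul_of_one_le_left (by positivity) hG1
  rcases lt_or_ge (X : ℝ) V with hXV | hXV
  · -- trivial case
    have hround : ∀ (x : ℝ) (j : ℕ), j ≤ d + 1 → |((1 : ℕ) : ℝ) * x - (round x : ℤ)| ≤
        c2 * (4 * C0 * u) ^ m2 * (2 ^ (d + 1) + (d + 1).factorial) * V ^ (d + 1) /
          (X : ℝ) ^ j := by
      intro x j hj
      rw [Nat.cast_one, one_mul]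
      refine (abs_sub_round x).trans ?_
      rw [le_div_iff₀ (by positivity)]
      have h1 : (X : ℝ) ^ j ≤ V ^ (d + 1) := by
        calc (X : ℝ) ^ j ≤ V ^ j := pow_le_pow_left₀ hX0.le hXV.le _
          _ ≤ V ^ (d + 1) := pow_le_pow_right₀ hV1 hj
      have h2 : (0 : ℝ) < (X : ℝ) ^ j := by positivity
      linarith
    refine ⟨1, le_rfl, ?_, ⟨round (α (d + 1)), hround _ _ le_rfl⟩,
      ⟨round (α (d + 1 - 1)), hround _ _ (by omega)⟩⟩
    rw [Nat.cast_one]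
    exact (one_le_pow₀ hV1).trans hZV
  · -- main case
    have hcore := core d hd c2 m2 hc2 H2 p hp C0 X A L hC0 hX hAL u W V hu hW1 hV hXV
      (q1 * (d + 1).factorial) (Nat.mul_pos hq1 (Nat.factorial_pos _)) ?_ a ?_ hS'
    · rw [hcd1, hcd] at hcore
      simpa using hcore
    · push_cast
      calc (q1 : ℝ) * (d + 1).factorial ≤ c1 * (C0 * u) ^ m1 * (d + 1).factorial := by gcongr
        _ = (c1 * (d + 1).factorial * C0 ^ m1) * u ^ m1 := by rw [mul_pow]; ring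
        _ ≤ W := by
            rw [hW]
            gcongr
            · omega
    · have e1 : ((q1 * (d + 1).factorial : ℕ) : ℝ) * p.coeff (d + 1) - a =
          q1 * ((d + 1).factorial * α (d + 1)) - a := by
        rw [hcd1]; push_cast; ring
      rw [e1]
      refine ha.trans ?_
      rw [div_le_div_iff₀ (by positivity) (by positivity)]
      have h1 : (X : ℝ) ^ (d + 1) ≤ (u * L) ^ (d + 1) := pow_le_pow_left₀ hX0.le hXL _
      rw [mul_pow] at h1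
      calc c1 * (C0 * u) ^ m1 * (X : ℝ) ^ (d + 1) ≤
            c1 * (C0 * u) ^ m1 * (u ^ (d + 1) * (L : ℝ) ^ (d + 1)) := by gcongr
        _ = (c1 * 1 * C0 ^ m1 * u ^ (m1 + (d + 1))) * (L : ℝ) ^ (d + 1) := by
            rw [mul_pow, pow_add]; ring
        _ ≤ W * (L : ℝ) ^ (d + 1) := by
            rw [hW]
            gcongr

end Pool.Agent.N97.MW
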