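import Pool.Agent.N657.QR.Stm

/-!
Project QR, DC: the double commutator identity for the ground state.
-/

set_option autoImplicit false
set_option linter.unusedSectionVars false

namespace Pool.Agent.N97.QR

open Pool.Agent.N657.QR Finset

section sq2

variable {V : Type} [Fintype V] [DecidableEq V]

/-- square summable -/
def l2 (f : (V → ℤ) → ℝ) : Prop := Summable (fun n => f n ^ 2)

lemma l2.mul {f h : (V → ℤ) → ℝ} (hf : l2 f) (hh : l2 h) : Summable (fun n => f n * h n) := by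
  refine Summable.of_norm_bounded (g := fun n => f n ^ 2 + h n ^ 2) (Summable.add hf hh) ?_
  intro n
  rw [Real.norm_eq_abs, abs_mul]
  nlinarith [sq_nonneg (|f n| - |h n|), sq_abs (f n), sq_abs (h n), abs_nonneg (f n),
    abs_nonneg (h n), mul_nonneg (abs_nonneg (f n)) (abs_nonneg (h n))]

lemma l2.add {f h : (V → ℤ) → ℝ} (hf : l2 f) (hh : l2 h) : l2 (fun n => f n + h n) := by
  refine Summable.of_nonneg_of_le (fun n => sq_nonneg _)
    (f := fun n => 2 * f n ^ 2 + 2 * h n ^ 2) ?_ ?_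
  · intro n
    nlinarith [sq_nonneg (f n - h n)]
  · exact (Summable.mul_left 2 hf).add (Summable.mul_left 2 hh)

lemma l2.smul {f : (V → ℤ) → ℝ} (c : ℝ) (hf : l2 f) : l2 (fun n => c * f n) := by
  have h : (fun n => (c * f n) ^ 2) = fun n => c ^ 2 * f n ^ 2 := by
    funext n
    ring
  unfold l2
  rw [h]
  exact Summable.mul_left _ hf

lemma l2.sum {ι : Type} (s : Finset ι) (f : ι → (V → ℤ) → ℝ) (hf : ∀ i ∈ s, l2 (f i)) :
    l2 (fun n => ∑ i ∈ s, f i n) := by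
  classical
  induction s using Finset.induction_on with
  | empty =>
    unfold l2
    simp only [Finset.sum_empty]
    norm_num
  | insert a s ha ih =>
    have h1 : (fun n => ∑ i ∈ insert a s, f i n) = fun n => f a n + ∑ i ∈ s, f i n := by
      funext n
      rw [Finset.sum_insert ha]
    rw [h1]
    exact (hf a (Finset.mem_insert_self a s)).add
      (ih (fun i hi => hf i (Finset.mem_insert_of_mem hi)))

lemma tshift (F : (V → ℤ) → ℝ) (a : V → ℤ) : ∑' n, F (n + a) = ∑' n, F n :=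
  (Equiv.addRight a).tsum_eq F

lemma sshift {F : (V → ℤ) → ℝ} (h : Summable F) (a : V → ℤ) : Summable (fun n => F (n + a)) :=
  (Equiv.addRight a).summable_iff.mpr h

lemma l2.shift {f : (V → ℤ) → ℝ} (hf : l2 f) (a : V → ℤ) : l2 (fun n => f (n + a)) :=
  sshift (F := fun n => f n ^ 2) hf a

lemma FE_of {ψ : (V → ℤ) → ℝ} (h0 : l2 ψ) (h1 : ∀ z, l2 (fun n => (n z : ℝ) * ψ n)) : FE ψ := by
  refine ⟨h0, ?_⟩
  have h : (fun n => N657.QR.sq n * ψ n ^ 2) = fun n => ∑ z, ((n z : ℝ) * ψ n) ^ 2 := by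
    funext n
    unfold N657.QR.sq
    rw [Finset.sum_mul]
    refine Finset.sum_congr rfl fun z _ => ?_
    ring
  rw [h]
  exact summable_sum (fun z _ => h1 z)

lemma coord_le (n : V → ℤ) (z : V) : (n z : ℝ) ^ 2 ≤ N657.QR.sq n := by
  unfold N657.QR.sq
  exact Finset.single_le_sum (f := fun x => (n x : ℝ) ^ 2) (fun x _ => sq_nonneg _)
    (Finset.mem_univ z)

lemma l2_z {ψ : (V → ℤ) → ℝ} (h : FE ψ) (z : V) : l2 (fun n => (n z : ℝ) * ψ n) := by
  refine Summable.of_nonneg_of_le (fun n => sq_nonneg _) (fun n => ?_) h.2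
  rw [mul_pow]
  exact mul_le_mul_of_nonneg_right (coord_le n z) (sq_nonneg _)

lemma l2_co {ψ : (V → ℤ) → ℝ} (h : FE ψ) (z : V) (c : ℝ) (a : V → ℤ) :
    l2 (fun n => ((n z : ℝ) + c) * ψ (n + a)) := by
  have h1 : l2 (fun m => (m z : ℝ) * ψ m + (c - (a z : ℝ)) * ψ m) :=
    (l2_z h z).add (l2.smul _ h.1)
  have h2 := h1.shift a
  have h3 : (fun n : V → ℤ => ((n z : ℝ) + c) * ψ (n + a)) =
      fun n => (((n + a) z : ℤ) : ℝ) * ψ (n + a) + (c - (a z : ℝ)) * ψ (n + a) := by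
    funext n
    rw [Pi.add_apply]
    push_cast
    ring
  rw [h3]
  exact h2

end sq2

section alg

variable {V : Type} [Fintype V] [DecidableEq V]

lemma XA_eq (g : V → ℝ) (ψ : (V → ℤ) → ℝ) (n : V → ℤ) :
    XA g ψ n = ∑ x, g x / 2 * (ψ (n + dl x) + ψ (n + -dl x)) := by
  unfold XA
  rw [Finset.sum_div]
  refine Finset.sum_congr rfl fun x _ => ?_
  rw [sub_eq_add_neg]
  ring

/-- the hopping operator -/
noncomputable def TT (w : V → V → ℝ) (ψ : (V → ℤ) → ℝ) (n : V → ℤ) : ℝ :=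
  (∑ x, ∑ y, w x y * (ψ (hp x y n) + ψ (hp y x n))) / 2

lemma TT_eq (w : V → V → ℝ) (ψ : (V → ℤ) → ℝ) (n : V → ℤ) :
    TT w ψ n = ∑ x, ∑ y, w x y / 2 * (ψ (n + (dl x - dl y)) + ψ (n + (dl y - dl x))) := by
  unfold TT hp
  rw [Finset.sum_div]
  refine Finset.sum_congr rfl fun x _ => ?_
  rw [Finset.sum_div]
  refine Finset.sum_congr rfl fun y _ => ?_
  rw [add_sub_assoc, add_sub_assoc]
  ring

lemma TT_XA (w : V → V → ℝ) (g : V → ℝ) (ψ : (V → ℤ) → ℝ) (n : V → ℤ) :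
    TT w (XA g ψ) n = XA g (TT w ψ) n := by
  rw [TT_eq, XA_eq]
  simp only [XA_eq, TT_eq]
  simp only [Finset.mul_sum, ← Finset.sum_add_distrib]
  have h1 : ∀ F : V → V → V → ℝ, ∑ x, ∑ y, ∑ z, F x y z = ∑ z, ∑ x, ∑ y, F x y z := by
    intro F
    calc ∑ x, ∑ y, ∑ z, F x y z = ∑ x, ∑ z, ∑ y, F x y z :=
          Finset.sum_congr rfl (fun x _ => Finset.sum_comm)
      _ = _ := Finset.sum_comm
  rw [h1]
  refine Finset.sum_congr rfl fun z _ => ?_
  refine Finset.sum_congr rfl fun x _ => ?_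
  refine Finset.sum_congr rfl fun y _ => ?_
  have e : ∀ a b : V → ℤ, n + a + b = n + b + a := fun a b => add_right_comm n a b
  rw [e (dl x - dl y) (dl z), e (dl x - dl y) (-dl z), e (dl y - dl x) (dl z),
    e (dl y - dl x) (-dl z)]
  ring

lemma sq_add (n : V → ℤ) (x : V) : N657.QR.sq (n + dl x) = N657.QR.sq n + 2 * (n x : ℝ) + 1 := by
  unfold N657.QR.sq dl
  have h : ∀ z, (((n + Pi.single x 1 : V → ℤ) z : ℤ) : ℝ) ^ 2 =
      (n z : ℝ) ^ 2 + if z = x then 2 * (n x : ℝ) + 1 else 0 := by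
    intro z
    rw [Pi.add_apply, Pi.single_apply]
    by_cases hz : z = x
    · subst hz
      rw [if_pos rfl, if_pos rfl]
      push_cast
      ring
    · rw [if_neg hz, if_neg hz]
      push_cast
      ring
  simp only [h, Finset.sum_add_distrib, Finset.sum_ite_eq', Finset.mem_univ, if_true]
  ring

lemma sq_sub (n : V → ℤ) (x : V) : N657.QR.sq (n + -dl x) = N657.QR.sq n - 2 * (n x : ℝ) + 1 := by
  have h := sq_add (n + -dl x) x
  rw [neg_add_cancel_right] at h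
  have h2 : (((n + -dl x : V → ℤ) x : ℤ) : ℝ) = (n x : ℝ) - 1 := by
    rw [Pi.add_apply, Pi.neg_apply]
    unfold dl
    rw [Pi.single_eq_same]
    push_cast
    ring
  rw [h2] at h
  linarith

lemma pot_eq (U : ℝ) (n : V → ℤ) : pot (U • (1 : Matrix V V ℝ)) 0 n = U * N657.QR.sq n := by
  unfold pot N657.QR.sq
  rw [Finset.mul_sum]
  refine Finset.sum_congr rfl fun x _ => ?_
  rw [Finset.sum_eq_single x]
  · rw [Matrix.smul_apply, Matrix.one_apply_eq]
    simp only [Pi.zero_apply, smul_eq_mul]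
    ring
  · intro y _ hy
    rw [Matrix.smul_apply, Matrix.one_apply_ne (Ne.symm hy)]
    simp
  · intro h
    exact absurd (Finset.mem_univ x) h

lemma tot_add (n m : V → ℤ) : tot (n + m) = tot n + tot m := by
  unfold tot
  rw [← Finset.sum_add_distrib]
  rfl

lemma tot_neg (n : V → ℤ) : tot (-n) = -tot n := by
  unfold tot
  rw [← Finset.sum_neg_distrib]
  rfl

lemma tot_dl (x : V) : tot (dl x) = 1 := by
  unfold tot dl
  simp

lemma cross {ψ : (V → ℤ) → ℝ} (hS : Sec 0 ψ) (n : V → ℤ) (x y : V) :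
    ψ (n + dl x) * ψ (n + -dl y) = 0 := by
  by_contra h
  rw [mul_eq_zero, not_or] at h
  have h1 := hS _ h.1
  have h2 := hS _ h.2
  rw [tot_add, tot_dl] at h1
  rw [tot_add, tot_neg, tot_dl] at h2
  omega

end alg

section main

variable {V : Type} [Fintype V] [DecidableEq V]

lemma l2_XA {ψ : (V → ℤ) → ℝ} (g : V → ℝ) (h : l2 ψ) : l2 (XA g ψ) := by
  have e : XA g ψ = fun n => ∑ x, g x / 2 * (ψ (n + dl x) + ψ (n + -dl x)) := by
    funext n
    exact XA_eq g ψ n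
  rw [e]
  exact l2.sum _ (fun x n => g x / 2 * (ψ (n + dl x) + ψ (n + -dl x)))
    (fun x _ => l2.smul _ ((h.shift _).add (h.shift _)))

lemma l2_TT {ψ : (V → ℤ) → ℝ} (w : V → V → ℝ) (h : l2 ψ) : l2 (TT w ψ) := by
  have e : TT w ψ = fun n => ∑ x, ∑ y, w x y / 2 * (ψ (n + (dl x - dl y)) +
      ψ (n + (dl y - dl x))) := by
    funext n
    exact TT_eq w ψ n
  rw [e]
  exact l2.sum _ (fun x n => ∑ y, w x y / 2 * (ψ (n + (dl x - dl y)) + ψ (n + (dl y - dl x))))
    (fun x _ => l2.sum _ (fun y n => w x y / 2 * (ψ (n + (dl x - dl y)) +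
      ψ (n + (dl y - dl x)))) (fun y _ => l2.smul _ ((h.shift _).add (h.shift _))))

lemma FE_XA {ψ : (V → ℤ) → ℝ} (g : V → ℝ) (h : FE ψ) : FE (XA g ψ) := by
  refine FE_of (l2_XA g h.1) fun z => ?_
  have e : (fun n : V → ℤ => (n z : ℝ) * XA g ψ n) = fun n => ∑ x, g x / 2 *
      (((n z : ℝ) + 0) * ψ (n + dl x) + ((n z : ℝ) + 0) * ψ (n + -dl x)) := by
    funext n
    rw [XA_eq, Finset.mul_sum]
    refine Finset.sum_congr rfl fun x _ => ?_
    ring
  rw [e]
  exact l2.sum _ (fun x n => g x / 2 *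
      (((n z : ℝ) + 0) * ψ (n + dl x) + ((n z : ℝ) + 0) * ψ (n + -dl x)))
    (fun x _ => l2.smul _ ((l2_co h z 0 _).add (l2_co h z 0 _)))

/-- the hopping energy -/
lemma hop_eq (hB : S_BAS) (w : V → V → ℝ) {ψ : (V → ℤ) → ℝ} (h : l2 ψ) :
    ∑ x, ∑ y, w x y * cr x y ψ = ∑' n, ψ n * TT w ψ n := by
  have e : ∀ n, ψ n * TT w ψ n = ∑ x, ∑ y, w x y / 2 * (ψ (hp x y n) * ψ n +
      ψ (hp y x n) * ψ n) := by
    intro n
    unfold TT
    rw [Finset.sum_div, Finset.mul_sum]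
    refine Finset.sum_congr rfl fun x _ => ?_
    rw [Finset.sum_div, Finset.mul_sum]
    refine Finset.sum_congr rfl fun y _ => ?_
    ring
  simp only [e]
  rw [Summable.tsum_finsetSum]
  · refine Finset.sum_congr rfl fun x _ => ?_
    rw [Summable.tsum_finsetSum]
    · refine Finset.sum_congr rfl fun y _ => ?_
      rw [tsum_mul_left, Summable.tsum_add (hB.crsum x y ψ h) (hB.crsum y x ψ h)]
      have : ∑' n, ψ (hp y x n) * ψ n = cr x y ψ := (hB.crcomm x y ψ).symm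
      rw [this]
      unfold cr
      ring
    · intro y _
      exact ((hB.crsum x y ψ h).add (hB.crsum y x ψ h)).mul_left _
  · intro x _
    exact summable_sum fun y _ => ((hB.crsum x y ψ h).add (hB.crsum y x ψ h)).mul_left _

/-- products of translates -/
lemma cr_add (x y : V) (ψ : (V → ℤ) → ℝ) : ∑' n, ψ (n + dl x) * ψ (n + dl y) = cr x y ψ := by
  unfold cr hp
  rw [← tshift (fun n => ψ (n + dl x) * ψ (n + dl y)) (-dl y)]
  refine tsum_congr fun n => ?_
  have e1 : n + -dl y + dl x = n + dl x - dl y := by abel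
  have e2 : n + -dl y + dl y = n := by abel
  rw [e1, e2]

lemma cr_sub (x y : V) (ψ : (V → ℤ) → ℝ) : ∑' n, ψ (n + -dl x) * ψ (n + -dl y) = cr x y ψ := by
  unfold cr hp
  rw [← tshift (fun n => ψ (n + -dl x) * ψ (n + -dl y)) (dl x)]
  refine tsum_congr fun n => ?_
  have e1 : n + dl x + -dl y = n + dl x - dl y := by abel
  have e2 : n + dl x + -dl x = n := by abel
  rw [e1, e2, mul_comm]

/-- the norm -/
lemma nr_XA {ψ : (V → ℤ) → ℝ} (g : V → ℝ) (h : l2 ψ) (hS : Sec 0 ψ) :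
    nr (XA g ψ) = (∑ x, ∑ y, g x * g y * cr x y ψ) / 2 := by
  unfold nr
  have e : ∀ n, XA g ψ n ^ 2 = ∑ x, ∑ y, g x * g y / 4 *
      (ψ (n + dl x) * ψ (n + dl y) + ψ (n + -dl x) * ψ (n + -dl y)) := by
    intro n
    rw [XA_eq, pow_two, Finset.sum_mul_sum]
    refine Finset.sum_congr rfl fun x _ => Finset.sum_congr rfl fun y _ => ?_
    have h1 := cross hS n x y
    have h2 := cross hS n y x
    linear_combination (g x * g y / 4) * h1 + (g x * g y / 4) * h2
  have hs : ∀ x y, Summable (fun n => g x * g y / 4 *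
      (ψ (n + dl x) * ψ (n + dl y) + ψ (n + -dl x) * ψ (n + -dl y))) := fun x y =>
    (((h.shift _).mul (h.shift _)).add ((h.shift _).mul (h.shift _))).mul_left _
  simp only [e]
  rw [Summable.tsum_finsetSum (fun x _ => summable_sum fun y _ => hs x y), Finset.sum_div]
  refine Finset.sum_congr rfl fun x _ => ?_
  rw [Summable.tsum_finsetSum (fun y _ => hs x y), Finset.sum_div]
  refine Finset.sum_congr rfl fun y _ => ?_
  rw [tsum_mul_left, Summable.tsum_add ((h.shift _).mul (h.shift _)) ((h.shift _).mul (h.shift _)),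
    cr_add, cr_sub]
  ring

lemma dl_apply (x y : V) : ((dl x y : ℤ) : ℝ) = if x = y then 1 else 0 := by
  unfold dl
  rw [Pi.single_apply]
  by_cases h : x = y
  · subst h
    simp
  · rw [if_neg h, if_neg (Ne.symm h)]
    simp

/-- the cancellation -/
lemma canc (hB : S_BAS) {ψ : (V → ℤ) → ℝ} (h : FE ψ) (x y : V) :
    ∑' n : V → ℤ, (-(2 * ((n x : ℝ) + 1 / 2) * ψ (n + dl x)) * ψ (n + dl y) +
      (2 * ((n x : ℝ) + -(1 / 2)) * ψ (n + -dl x)) * ψ (n + -dl y)) =
      if x = y then 2 * nr ψ else 0 := by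
  have hsA : Summable (fun n : V → ℤ => (((n x : ℝ) + 1 / 2) * ψ (n + dl x)) * ψ (n + dl y)) :=
    (l2_co h x _ _).mul (l2.shift h.1 _)
  have hsB : Summable (fun n : V → ℤ => (((n x : ℝ) + -(1 / 2)) * ψ (n + -dl x)) *
      ψ (n + -dl y)) :=
    (l2_co h x _ _).mul (l2.shift h.1 _)
  have hsC : Summable (fun n : V → ℤ => ψ (n + -dl x) * ψ (n + -dl y)) :=
    (l2.shift h.1 _).mul (l2.shift h.1 _)
  have e0 : ∀ n : V → ℤ, (-(2 * ((n x : ℝ) + 1 / 2) * ψ (n + dl x)) * ψ (n + dl y) +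
      (2 * ((n x : ℝ) + -(1 / 2)) * ψ (n + -dl x)) * ψ (n + -dl y)) =
      2 * ((((n x : ℝ) + -(1 / 2)) * ψ (n + -dl x)) * ψ (n + -dl y)) -
      2 * ((((n x : ℝ) + 1 / 2) * ψ (n + dl x)) * ψ (n + dl y)) := fun n => by ring
  simp only [e0]
  rw [Summable.tsum_sub (hsB.mul_left 2) (hsA.mul_left 2), tsum_mul_left, tsum_mul_left]
  have e1 : ∑' n : V → ℤ, (((n x : ℝ) + 1 / 2) * ψ (n + dl x)) * ψ (n + dl y) =
      ∑' n : V → ℤ, ((((n x : ℝ) + -(1 / 2)) * ψ (n + -dl x)) * ψ (n + -dl y) -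
        (if x = y then 1 else 0) * (ψ (n + -dl x) * ψ (n + -dl y))) := by
    rw [← tshift (fun n : V → ℤ => (((n x : ℝ) + 1 / 2) * ψ (n + dl x)) * ψ (n + dl y))
      (-dl x + -dl y)]
    refine tsum_congr fun n => ?_
    have a1 : n + (-dl x + -dl y) + dl x = n + -dl y := by abel
    have a2 : n + (-dl x + -dl y) + dl y = n + -dl x := by abel
    have a3 : (((n + (-dl x + -dl y) : V → ℤ) x : ℤ) : ℝ) = (n x : ℝ) - 1 -
        (if x = y then 1 else 0) := by
      rw [Pi.add_apply, Pi.add_apply, Pi.neg_apply, Pi.neg_apply]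
      push_cast
      rw [dl_apply, dl_apply, if_pos rfl]
      by_cases hxy : x = y
      · rw [if_pos hxy, if_pos hxy.symm]
        ring
      · rw [if_neg hxy, if_neg (Ne.symm hxy)]
        ring
    rw [a1, a2, a3]
    ring
  rw [e1, Summable.tsum_sub hsB (hsC.mul_left _), tsum_mul_left, cr_sub]
  by_cases hxy : x = y
  · subst hxy
    rw [if_pos rfl, if_pos rfl, hB.crself]
    ring
  · rw [if_neg hxy, if_neg hxy]
    ring

end main

theorem main (hB : S_BAS) (hE : S_EIG) : S_DC := by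
  intro V _ _ _ U w Ψ g hU hw hG
  have hPD : (U • (1 : Matrix V V ℝ)).PosDef := Matrix.PosDef.one.smul hU
  obtain ⟨heig, -⟩ := hE (U • (1 : Matrix V V ℝ)) w 0 0 Ψ hPD hw hG
  obtain ⟨hFE, hS, hn, -⟩ := hG
  set E := en (U • (1 : Matrix V V ℝ)) w 0 0 with hEdef
  have hl2 : l2 Ψ := hFE.1
  refine ⟨FE_XA g hFE, nr_XA g hl2 hS, ?_⟩
  set φ := XA g Ψ with hφ
  have hφFE : FE φ := FE_XA g hFE
  have hφ2 : l2 φ := hφFE.1
  have hTT : ∀ n, TT w Ψ n = (U * N657.QR.sq n - E) * Ψ n := by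
    intro n
    have := heig n
    rw [pot_eq] at this
    rw [this]
    rfl
  have hTφ : ∀ n, TT w φ n = XA g (TT w Ψ) n := fun n => TT_XA w g Ψ n
  have hsP : Summable (fun n => U * N657.QR.sq n * φ n ^ 2) := by
    have := hφFE.2.mul_left U
    refine this.congr fun n => ?_
    ring
  have hsT : Summable (fun n => φ n * TT w φ n) := hφ2.mul (l2_TT w hφ2)
  have hkey : FF (U • (1 : Matrix V V ℝ)) w 0 φ - E * nr φ =
      ∑' n, (U * N657.QR.sq n * φ n ^ 2 - φ n * TT w φ n - E * φ n ^ 2) := by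
    unfold FF po nr
    rw [hop_eq hB w hφ2]
    simp only [pot_eq]
    rw [Summable.tsum_sub (hsP.sub hsT) (Summable.mul_left E hφ2), Summable.tsum_sub hsP hsT,
      tsum_mul_left]
  have hpt : ∀ n, U * N657.QR.sq n * φ n ^ 2 - φ n * TT w φ n - E * φ n ^ 2 =
      ∑ x, ∑ y, U / 4 * (g x * g y) * (-(2 * ((n x : ℝ) + 1 / 2) * Ψ (n + dl x)) * Ψ (n + dl y) +
      (2 * ((n x : ℝ) + -(1 / 2)) * Ψ (n + -dl x)) * Ψ (n + -dl y)) := by
    intro n
    have h1 : (U * N657.QR.sq n - E) * φ n - TT w φ n = ∑ x, U / 2 * g x *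
        (-(2 * ((n x : ℝ) + 1 / 2) * Ψ (n + dl x)) + 2 * ((n x : ℝ) + -(1 / 2)) *
          Ψ (n + -dl x)) := by
      rw [hTφ, hφ, XA_eq, XA_eq, Finset.mul_sum, ← Finset.sum_sub_distrib]
      refine Finset.sum_congr rfl fun x _ => ?_
      rw [hTT, hTT, sq_add, sq_sub]
      ring
    have h2 : U * N657.QR.sq n * φ n ^ 2 - φ n * TT w φ n - E * φ n ^ 2 =
        ((U * N657.QR.sq n - E) * φ n - TT w φ n) * φ n := by ring
    rw [h2, h1]
    nth_rewrite 1 [hφ]
    rw [XA_eq, Finset.sum_mul_sum]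
    refine Finset.sum_congr rfl fun x _ => Finset.sum_congr rfl fun y _ => ?_
    have c1 := cross hS n x y
    have c2 := cross hS n y x
    linear_combination (U / 4 * (g x * g y)) * (-(2 * ((n x : ℝ) + 1 / 2))) * c1 +
      (U / 4 * (g x * g y)) * (2 * ((n x : ℝ) + -(1 / 2))) * c2
  have hsum : ∀ x y, Summable (fun n : V → ℤ => U / 4 * (g x * g y) *
      (-(2 * ((n x : ℝ) + 1 / 2) * Ψ (n + dl x)) * Ψ (n + dl y) +
      (2 * ((n x : ℝ) + -(1 / 2)) * Ψ (n + -dl x)) * Ψ (n + -dl y))) := by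
    intro x y
    apply Summable.mul_left
    have hsA : Summable (fun n : V → ℤ => (((n x : ℝ) + 1 / 2) * Ψ (n + dl x)) * Ψ (n + dl y)) :=
      (l2_co hFE x _ _).mul (l2.shift hl2 _)
    have hsB : Summable (fun n : V → ℤ => (((n x : ℝ) + -(1 / 2)) * Ψ (n + -dl x)) *
        Ψ (n + -dl y)) :=
      (l2_co hFE x _ _).mul (l2.shift hl2 _)
    refine ((hsA.mul_left (-2)).add (hsB.mul_left 2)).congr fun n => ?_
    ring
  have hfin : ∑' n, (U * N657.QR.sq n * φ n ^ 2 - φ n * TT w φ n - E * φ n ^ 2) =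
      U / 2 * ∑ x, g x ^ 2 := by
    simp only [hpt]
    rw [Summable.tsum_finsetSum (fun x _ => summable_sum fun y _ => hsum x y), Finset.mul_sum]
    refine Finset.sum_congr rfl fun x _ => ?_
    rw [Summable.tsum_finsetSum (fun y _ => hsum x y)]
    have : ∀ y, ∑' n : V → ℤ, U / 4 * (g x * g y) *
      (-(2 * ((n x : ℝ) + 1 / 2) * Ψ (n + dl x)) * Ψ (n + dl y) +
      (2 * ((n x : ℝ) + -(1 / 2)) * Ψ (n + -dl x)) * Ψ (n + -dl y)) =
      if x = y then U / 2 * g x ^ 2 else 0 := by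
      intro y
      rw [tsum_mul_left, canc hB hFE, hn]
      by_cases hxy : x = y
      · subst hxy
        rw [if_pos rfl, if_pos rfl]
        ring
      · rw [if_neg hxy, if_neg hxy, mul_zero]
    simp only [this, Finset.sum_ite_eq, Finset.mem_univ, if_true]
  linarith

end Pool.Agent.N97.QR
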