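import Mathlib
import Pool.Agent.N906.FH.Stm
import Pool.Agent.N945.SZ_PERA

/-!
Project FH, PERA2: counting for each `a`, near the cusp.
-/

set_option autoImplicit false

namespace Pool.Agent.N97.FH

open Finset Pool.Agent.N906.SZ Pool.Agent.N906.FH Pool.Agent.N945.SZ

/-- for given `a` the absolute values of the `b` lie in a short interval -/
theorem ival2 {X Y : ℝ} (hX : 1 ≤ X) (hY : 1 ≤ Y) (a : ℤ) :
    ∃ β : ℝ, ∀ b : ℤ, Rg X Y a b → β ≤ |(b : ℝ)| ∧ |(b : ℝ)| ≤ β + 100 * Y / X ^ 3 := by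
  have hX0 : 0 < X := by linarith
  have hX3 : 0 < X ^ 3 := by positivity
  have hX6 : X ^ 6 = X ^ 3 * X ^ 3 := by ring
  set L : ℝ := 100 * Y / X ^ 3 with hL
  have hLX : L * X ^ 3 = 100 * Y := by
    rw [hL]
    field_simp
  have hL0 : 0 ≤ L := by rw [hL]; positivity
  by_cases hYX : X ^ 6 ≤ 100 * Y
  · refine ⟨0, fun b hb => ⟨abs_nonneg _, ?_⟩⟩
    obtain ⟨-, hbX, -, -⟩ := hb
    rw [zero_add]
    refine hbX.trans ?_
    rw [hL, le_div_iff₀ hX3]
    linarith
  · push Not at hYX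
    refine ⟨√((4 * (a : ℝ) ^ 3 - Y) / 27), fun b hb => ?_⟩
    obtain ⟨-, -, hMx, hD⟩ := hb
    have hDl : 64 * |((Dd a b : ℤ) : ℝ)| < X ^ 6 := by linarith
    have ha3 : X ^ 6 ≤ 64 * |(a : ℝ)| ^ 3 := by
      unfold Mx at hMx
      rcases max_choice (|(a : ℝ)| ^ 3) |((Dd a b : ℤ) : ℝ)| with h | h
      · rwa [h] at hMx
      · rw [h] at hMx
        linarith
    rw [abs_le] at hD
    unfold Dd at hD
    push_cast at hD
    have ha0 : 0 < (a : ℝ) := by
      by_contra hcon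
      push Not at hcon
      have e : |(a : ℝ)| ^ 3 = -(a : ℝ) ^ 3 := by
        rw [abs_of_nonpos hcon]
        ring
      rw [e] at ha3
      nlinarith [sq_nonneg (b : ℝ), hD.1]
    rw [abs_of_pos ha0] at ha3
    have hlow : X ^ 6 / 20 ≤ 4 * (a : ℝ) ^ 3 - Y := by linarith
    have hpos : 0 ≤ (4 * (a : ℝ) ^ 3 - Y) / 27 := by
      apply div_nonneg _ (by norm_num)
      have : 0 ≤ X ^ 6 / 20 := by positivity
      linarith
    constructor
    · apply Real.sqrt_le_iff.mpr
      refine ⟨abs_nonneg _, ?_⟩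
      rw [sq_abs]
      linarith [hD.2]
    · set β := √((4 * (a : ℝ) ^ 3 - Y) / 27) with hβ
      have hβs : β ^ 2 = (4 * (a : ℝ) ^ 3 - Y) / 27 := Real.sq_sqrt hpos
      have hβ0 : 0 ≤ β := Real.sqrt_nonneg _
      have hβX : X ^ 3 / 24 ≤ β := by
        apply Real.le_sqrt_of_sq_le
        have : (X ^ 3 / 24) ^ 2 = X ^ 6 / 576 := by rw [hX6]; ring
        rw [this]
        have h0 : 0 ≤ X ^ 6 := by positivity
        linarith
      by_contra hc
      push Not at hc
      have h3 : (β + L) ^ 2 < (b : ℝ) ^ 2 := by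
        rw [← sq_abs (b : ℝ)]
        exact pow_lt_pow_left₀ hc (by positivity) (by norm_num)
      have h4 : 27 * (b : ℝ) ^ 2 ≤ 4 * (a : ℝ) ^ 3 + Y := by linarith [hD.1]
      have h7 : 100 / 24 * Y ≤ β * L := by
        calc 100 / 24 * Y = (X ^ 3 / 24) * L := by
              have : X ^ 3 / 24 * L = L * X ^ 3 / 24 := by ring
              rw [this, hLX]
              ring
          _ ≤ β * L := mul_le_mul_of_nonneg_right hβX hL0
      nlinarith [sq_nonneg L]

/-- the number of the pairs of a given shape -/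
theorem rega2 (X Y : ℝ) (hX : 1 ≤ X) (hY : 1 ≤ Y) (A K w : ℕ) (hA : 1 ≤ A) (hK : 1 ≤ K)
    (F : Finset (ℤ × ℤ))
    (h1 : ∀ x ∈ F, x.1 ≠ 0 ∧ Rg X Y x.1 x.2 ∧ (A : ℤ) ∣ x.1)
    (h2 : ∀ a : ℤ, ∀ B : Finset ℤ, (∀ b ∈ B, (a, b) ∈ F) → ∀ u L : ℝ, 0 ≤ L →
      (∀ b ∈ B, u ≤ (b : ℝ) ∧ (b : ℝ) ≤ u + L) → (B.card : ℝ) ≤ 2 ^ w * (L / K + 1)) :
    (F.card : ℝ) ≤ 400 * 2 ^ w * (Y / (X * (A * K)) + X ^ 2) := by
  classical
  have hX0 : 0 < X := by linarith
  have hY0 : 0 < Y := by linarith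
  have hA' : (0 : ℝ) < A := by exact_mod_cast hA
  have hA1 : (1 : ℝ) ≤ A := by exact_mod_cast hA
  have hK' : (0 : ℝ) < K := by exact_mod_cast hK
  set L : ℝ := 100 * Y / X ^ 3 with hL
  have hL0 : 0 ≤ L := by rw [hL]; positivity
  set h : ℝ := 2 * (2 ^ w * (L / K + 1)) with hh
  have hh0 : 0 ≤ h := by rw [hh]; positivity
  have hfib : ∀ a : ℤ, ((F.filter (fun x => x.1 = a)).card : ℝ) ≤ h := by
    intro a
    obtain ⟨β, hβ⟩ := ival2 hX hY a
    set G := F.filter (fun x => x.1 = a) with hG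
    have hmem : ∀ x ∈ G, (a, x.2) ∈ F ∧ β ≤ |(x.2 : ℝ)| ∧ |(x.2 : ℝ)| ≤ β + L := by
      intro x hx
      obtain ⟨hx1, hx2⟩ := Finset.mem_filter.mp hx
      have : x = (a, x.2) := by rw [← hx2]
      refine ⟨this ▸ hx1, hβ x.2 ?_⟩
      have := (h1 x hx1).2.1
      rwa [hx2] at this
    have hc : G.card = (G.image Prod.snd).card := by
      rw [Finset.card_image_of_injOn]
      intro x hx x' hx' he
      have e1 := (Finset.mem_filter.mp hx).2
      have e2 := (Finset.mem_filter.mp hx').2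
      exact Prod.ext (e1.trans e2.symm) he
    set B := G.image Prod.snd with hB
    have hBm : ∀ b ∈ B, (a, b) ∈ F ∧ β ≤ |(b : ℝ)| ∧ |(b : ℝ)| ≤ β + L := by
      intro b hb
      obtain ⟨x, hx, rfl⟩ := Finset.mem_image.mp hb
      exact hmem x hx
    have hsplit : B.card = (B.filter (fun b => 0 ≤ b)).card + (B.filter (fun b => ¬ 0 ≤ b)).card :=
      (Finset.card_filter_add_card_filter_not (s := B) (fun b => 0 ≤ b)).symm
    have hp : ((B.filter (fun b => 0 ≤ b)).card : ℝ) ≤ 2 ^ w * (L / K + 1) := by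
      apply h2 a _ _ β L hL0
      · intro b hb
        obtain ⟨hb1, hb2⟩ := Finset.mem_filter.mp hb
        have := (hBm b hb1).2
        rwa [abs_of_nonneg (by exact_mod_cast hb2)] at this
      · intro b hb
        exact (hBm b (Finset.mem_filter.mp hb).1).1
    have hn : ((B.filter (fun b => ¬ 0 ≤ b)).card : ℝ) ≤ 2 ^ w * (L / K + 1) := by
      apply h2 a _ _ (-β - L) L hL0
      · intro b hb
        obtain ⟨hb1, hb2⟩ := Finset.mem_filter.mp hb
        have := (hBm b hb1).2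
        rw [abs_of_neg (by exact_mod_cast (not_le.mp hb2))] at this
        constructor <;> linarith [this.1, this.2]
      · intro b hb
        exact (hBm b (Finset.mem_filter.mp hb).1).1
    have : (G.card : ℝ) = ((B.filter (fun b => 0 ≤ b)).card : ℝ) +
        ((B.filter (fun b => ¬ 0 ≤ b)).card : ℝ) := by
      rw [hc]; exact_mod_cast hsplit
    rw [this, hh]
    linarith
  set N₀ := ⌊X ^ 2 / A⌋₊ with hN₀
  let P₁ : Finset ℤ := (Finset.Icc 1 N₀).image (fun m : ℕ => ((A * m : ℕ) : ℤ))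
  let P₂ : Finset ℤ := (Finset.Icc 1 N₀).image (fun m : ℕ => -((A * m : ℕ) : ℤ))
  have hsub : F.image Prod.fst ⊆ P₁ ∪ P₂ := by
    intro a ha
    obtain ⟨x, hx, rfl⟩ := Finset.mem_image.mp ha
    obtain ⟨hx0, ⟨hxX, -, -, -⟩, c, hc⟩ := h1 x hx
    have hcn : c ≠ 0 := by rintro rfl; simp at hc; exact hx0 hc
    have hcb : (c.natAbs : ℝ) ≤ X ^ 2 / A := by
      have e1 : |(x.1 : ℝ)| = A * (c.natAbs : ℝ) := by
        rw [hc]
        push_cast
        rw [abs_mul, abs_of_nonneg hA'.le, Nat.cast_natAbs]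
        push_cast; rfl
      rw [le_div_iff₀ hA']
      linarith
    have hcI : c.natAbs ∈ Finset.Icc 1 N₀ := by
      rw [Finset.mem_Icc]
      exact ⟨Nat.one_le_iff_ne_zero.mpr (Int.natAbs_ne_zero.mpr hcn), Nat.le_floor hcb⟩
    rw [Finset.mem_union]
    rcases le_total 0 c with h0 | h0
    · left
      apply Finset.mem_image.mpr
      refine ⟨c.natAbs, hcI, ?_⟩
      rw [hc]; push_cast
      rw [abs_of_nonneg h0]
    · right
      apply Finset.mem_image.mpr
      refine ⟨c.natAbs, hcI, ?_⟩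
      rw [hc]; push_cast
      rw [abs_of_nonpos h0]; ring
  have hcard : ((F.image Prod.fst).card : ℝ) ≤ 2 * (X ^ 2 / A) := by
    have e1 : (F.image Prod.fst).card ≤ N₀ + N₀ := by
      calc (F.image Prod.fst).card ≤ (P₁ ∪ P₂).card := Finset.card_le_card hsub
        _ ≤ P₁.card + P₂.card := Finset.card_union_le _ _
        _ ≤ (Finset.Icc 1 N₀).card + (Finset.Icc 1 N₀).card :=
            Nat.add_le_add Finset.card_image_le Finset.card_image_le
        _ = N₀ + N₀ := by rw [Nat.card_Icc, Nat.add_sub_cancel]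
    have e2 : (N₀ : ℝ) ≤ X ^ 2 / A := Nat.floor_le (by positivity)
    calc ((F.image Prod.fst).card : ℝ) ≤ ((N₀ + N₀ : ℕ) : ℝ) := by exact_mod_cast e1
      _ = N₀ + N₀ := by push_cast; ring
      _ ≤ 2 * (X ^ 2 / A) := by linarith
  calc (F.card : ℝ) = ((∑ a ∈ F.image Prod.fst, (F.filter (fun x => x.1 = a)).card : ℕ) : ℝ) := by
        rw [Finset.card_eq_sum_card_image Prod.fst F]
    _ = ∑ a ∈ F.image Prod.fst, ((F.filter (fun x => x.1 = a)).card : ℝ) := by push_cast; rfl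
    _ ≤ ∑ a ∈ F.image Prod.fst, h := Finset.sum_le_sum (fun a _ => hfib a)
    _ = (F.image Prod.fst).card * h := by rw [Finset.sum_const, nsmul_eq_mul]
    _ ≤ (2 * (X ^ 2 / A)) * h := mul_le_mul_of_nonneg_right hcard hh0
    _ = 2 ^ w * (400 * (Y / (X * (A * K))) + 4 * (X ^ 2 / A)) := by
        rw [hh, hL]
        field_simp
        ring
    _ ≤ 2 ^ w * (400 * (Y / (X * (A * K))) + 400 * X ^ 2) := by
        have e1 : X ^ 2 / A ≤ X ^ 2 := div_le_self (by positivity) hA1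
        have e2 : (0 : ℝ) ≤ X ^ 2 := by positivity
        have e3 : (0 : ℝ) ≤ 2 ^ w := by positivity
        apply mul_le_mul_of_nonneg_left _ e3
        linarith
    _ = 400 * 2 ^ w * (Y / (X * (A * K)) + X ^ 2) := by ring

theorem pera2 : S_PERA2 := by
  classical
  refine ⟨400, by norm_num, ?_⟩
  intro X Y n hX hY hn hcop F hF
  have hX0 : 0 < X := by linarith
  set P := n.primeFactors with hP
  have hPp : ∀ p ∈ P, p.Prime := fun p hp => Nat.prime_of_mem_primeFactors hp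
  have hP5 : ∀ p ∈ P, 5 ≤ p := by
    intro p hp
    have hpp := hPp p hp
    have hd := Nat.dvd_of_mem_primeFactors hp
    have h2 : p ≠ 2 := by
      rintro rfl
      have := Nat.dvd_gcd hd (by norm_num : (2 : ℕ) ∣ 6)
      rw [hcop] at this; omega
    have h3 : p ≠ 3 := by
      rintro rfl
      have := Nat.dvd_gcd hd (by norm_num : (3 : ℕ) ∣ 6)
      rw [hcop] at this; omega
    have h4 : p ≠ 4 := by rintro rfl; revert hpp; decide
    have := hpp.two_le
    omega
  have hg : ∀ p ∈ P, 1 ≤ n.factorization p := by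
    intro p hp
    exact (hPp p hp).factorization_pos_of_dvd (by omega) (Nat.dvd_of_mem_primeFactors hp)
  -- the modulus
  have hM : n * rd n = ∏ p ∈ P, p ^ (n.factorization p + 1) := by
    have e1 : ∏ p ∈ P, p ^ n.factorization p = n := Nat.prod_factorization_pow_eq_self (by omega)
    have e2 : rd n = ∏ p ∈ P, p := by
      unfold rd
      rw [Finset.filter_true_of_mem hP5]
    rw [e2]
    conv_lhs => rw [← e1]
    rw [← Finset.prod_mul_distrib]
    apply Finset.prod_congr rfl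
    intro p _
    ring
  have hM0 : 0 < n * rd n := by
    rw [hM]
    exact Finset.prod_pos (fun p hp => pow_pos (hPp p hp).pos _)
  have hM0' : (0 : ℝ) < ((n * rd n : ℕ) : ℝ) := by exact_mod_cast hM0
  let σ : ℤ × ℤ → (P → Fin 3) := fun x p => ⟨sh p (n.factorization p) x.1, sh_lt _ _ _⟩
  set Bd : ℝ := 400 * 2 ^ P.card * (Y / (X * (n * rd n : ℕ)) + X ^ 2) with hBd
  have hBd0 : 0 ≤ Bd := by positivity
  have hLc : ∀ x ∈ F, ∀ p ∈ P, Lc p (n.factorization p) x.1 x.2 := by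
    intro x hx p hp
    obtain ⟨-, hm, -, hC⟩ := hF x hx
    exact ⟨hC p hp, hm.2 p (hPp p hp)⟩
  have hfib : ∀ s ∈ F.image σ, (F.filter (fun x => σ x = s)).card ≤ ⌊Bd⌋₊ := by
    intro s _
    apply Nat.le_floor
    let s' : ℕ → ℕ := fun p => if h : p ∈ P then (s ⟨p, h⟩ : ℕ) else 0
    have hs' : ∀ x ∈ F.filter (fun x => σ x = s), ∀ p ∈ P, sh p (n.factorization p) x.1 = s' p := by
      intro x hx p hp
      have e := (Finset.mem_filter.mp hx).2
      have e2 := congrFun e ⟨p, hp⟩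
      simp only [s', dif_pos hp]
      rw [← e2]
    set A : ℕ := ∏ p ∈ P, p ^ al (n.factorization p) (s' p) with hA
    set K : ℕ := ∏ p ∈ P, p ^ ka (n.factorization p) (s' p) with hK
    have hA1 : 1 ≤ A := Finset.prod_pos (fun p hp => pow_pos (hPp p hp).pos _)
    have hK1 : 1 ≤ K := Finset.prod_pos (fun p hp => pow_pos (hPp p hp).pos _)
    have hAK : n * rd n ≤ A * K := by
      rw [hM, hA, hK, ← Finset.prod_mul_distrib]
      apply Finset.prod_le_prod'
      intro p hp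
      rw [← pow_add]
      exact Nat.pow_le_pow_right (hPp p hp).pos (al_ka _ _ (hg p hp))
    have hAK' : ((n * rd n : ℕ) : ℝ) ≤ A * K := by exact_mod_cast hAK
    have hmain := rega2 X Y hX hY A K P.card hA1 hK1 (F.filter (fun x => σ x = s)) ?_ ?_
    · refine hmain.trans ?_
      rw [hBd]
      have e1 : Y / (X * (A * K)) ≤ Y / (X * ((n * rd n : ℕ) : ℝ)) := by
        apply div_le_div_of_nonneg_left (by linarith) (by positivity)
        exact mul_le_mul_of_nonneg_left hAK' hX0.le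
      have e2 : (0 : ℝ) ≤ 400 * 2 ^ P.card := by positivity
      apply mul_le_mul_of_nonneg_left _ e2
      linarith
    · intro x hx
      have hx' := (Finset.mem_filter.mp hx).1
      obtain ⟨h0, -, hR, -⟩ := hF x hx'
      refine ⟨h0, hR, ?_⟩
      have e : ((A : ℕ) : ℤ) = ∏ p ∈ P, ((p : ℤ) ^ al (n.factorization p) (s' p)) := by
        rw [hA]; push_cast; rfl
      rw [e]
      apply Finset.prod_dvd_of_coprime (cop_pw hPp (fun p => al (n.factorization p) (s' p)))
      intro p hp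
      rw [← hs' x hx p hp]
      exact loc_a (hPp p hp) (hP5 p hp) (hg p hp) (hLc x hx' p hp)
    · intro a B hB u L hL hu
      apply cl P hPp (fun p => ka (n.factorization p) (s' p)) B _ u L hL hu
      intro b hb b' hb' p hp
      have m1 := hB b hb
      have m2 := hB b' hb'
      have e := hs' _ m1 p hp
      simp only at e
      rw [← e]
      exact loc_b (hPp p hp) (hP5 p hp) (hg p hp) (hLc _ (Finset.mem_filter.mp m1).1 p hp)
        (hLc _ (Finset.mem_filter.mp m2).1 p hp)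
  have h3 := Finset.card_le_mul_card_image F ⌊Bd⌋₊ hfib
  have h4 : (F.image σ).card ≤ 3 ^ P.card := by
    calc (F.image σ).card ≤ Fintype.card (P → Fin 3) := Finset.card_le_univ _
      _ = 3 ^ P.card := by simp
  have h5 : (⌊Bd⌋₊ : ℝ) ≤ Bd := Nat.floor_le hBd0
  calc (F.card : ℝ) ≤ ((⌊Bd⌋₊ * (F.image σ).card : ℕ) : ℝ) := by exact_mod_cast h3
    _ ≤ ((⌊Bd⌋₊ * 3 ^ P.card : ℕ) : ℝ) := by exact_mod_cast Nat.mul_le_mul_left _ h4
    _ = (⌊Bd⌋₊ : ℝ) * 3 ^ P.card := by push_cast; ring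
    _ ≤ Bd * 3 ^ P.card := mul_le_mul_of_nonneg_right h5 (by positivity)
    _ = 400 * 6 ^ P.card * (Y / (X * (n * rd n : ℕ)) + X ^ 2) := by
        rw [hBd]
        have : (6 : ℝ) ^ P.card = 2 ^ P.card * 3 ^ P.card := by rw [← mul_pow]; norm_num
        rw [this]; ring

end Pool.Agent.N97.FH
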