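import Pool.Agent.N964.GX.Stm3
import Pool.Agent.W388.TW.Good
import Pool.Agent.W482.TW.Id
import Pool.Agent.W482.TW.Id2
import Pool.Agent.W688.TW.Kara
import Pool.Agent.W688.TW.Sel
import Pool.Agent.W388.TW.XDir
import Pool.Agent.W108.TW.Mellin
import Pool.Agent.W361.TW.Nzr
import Pool.Agent.W440.TW.Twist
import Pool.Agent.W54.TW.Unfold
import Pool.Agent.W54.TW.EisPairs
import Pool.Agent.W409.TW.EisLim
import Pool.Agent.W749.TW.EisBd
import Pool.Agent.W375.TW.Cusp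
import Pool.Agent.W388.TW.XPars
import Pool.Agent.W438.TW.RS4
import Pool.Agent.W440.LV.FEU

/-!
# Project GX: the twists of newforms of weight two (helper97)
-/

set_option autoImplicit false

open Complex Filter Topology Set MeasureTheory UpperHalfPlane MatrixGroups CongruenceSubgroup

namespace Pool.Agent.N97.GX

open Pool.Agent.N964.GX
open Pool.Agent.W354 (LogC)
open Y767.WH (GoodH)
open W388 (HeckeSeq cS RSLim FE2 GG lamf IsNewf)
open Pool.Agent.W169.HF (IsForm coef)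

/-! ### the parts -/

theorem p_sel : W388.StSel := W688.TW.t_sel Pool.Agent.W482.TW.t_id2 W688.TW.t_kara
theorem p_dir : W388.StDir := W388.XDir.t_dir Pool.Agent.W482.TW.t_id1 p_sel
theorem p_nzr : W388.StNzr := W361TW.Nzr.t_nzr Pool.Agent.W482.TW.t_id1 p_sel p_dir
theorem p_rs : W388.StRS := Pool.Agent.W438.TW.t_rs W54.TW.t_unfold W54.TW.t_eispairs
  Pool.Agent.W409.TW.t_eislim Pool.Agent.W749.TW.t_eisbd W388.t_cusp W388.XPars.t_pars

/-! ### the coefficients at the prime powers -/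

lemma lam_pow_bad {N : ℕ} {lam : ℕ → ℝ} (hH : HeckeSeq N lam) {p : ℕ} (hp : p.Prime)
    (hpN : p ∣ N) (j : ℕ) : lam (p ^ j) = lam p ^ j := by
  induction j using Nat.twoStepInduction with
  | zero => rw [pow_zero, pow_zero, hH.one]
  | one => rw [pow_one, pow_one]
  | more j _ ih =>
    rw [hH.pow p j hp, if_pos hpN, sub_zero, ih]
    ring

lemma diff_good {N : ℕ} {lam : ℕ → ℝ} (hH : HeckeSeq N lam) {p : ℕ} (hp : p.Prime)
    (hpN : ¬ p ∣ N) {θ : ℝ} (hθ : lam p = 2 * Real.cos θ) (j : ℕ) :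
    lam (p ^ (j + 2)) - lam (p ^ j) = 2 * Real.cos (((j + 2 : ℕ) : ℝ) * θ) := by
  have h0 : lam (p ^ 2) = lam p * lam p - 1 := by
    have := hH.pow p 0 hp
    rw [if_neg hpN, zero_add, zero_add, pow_one, pow_zero, hH.one] at this
    exact this
  have h1 : lam (p ^ 3) = lam p * (lam p * lam p - 1) - lam p := by
    have := hH.pow p 1 hp
    rw [if_neg hpN, pow_one] at this
    rw [show (3 : ℕ) = 1 + 2 from rfl, this, show (1 + 1 : ℕ) = 2 from rfl, h0]
  induction j using Nat.twoStepInduction with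
  | zero =>
    rw [zero_add, pow_zero, hH.one, h0, hθ]
    push_cast
    rw [Real.cos_two_mul]
    ring
  | one =>
    rw [show (1 + 2 : ℕ) = 3 from rfl, pow_one, h1, hθ]
    push_cast
    rw [Real.cos_three_mul]
    ring
  | more j ih1 ih2 =>
    have e1 := hH.pow p (j + 2) hp
    have e2 := hH.pow p j hp
    rw [if_neg hpN] at e1 e2
    have a1 : j + 2 + 2 = j + 4 := rfl
    have a2 : j + 2 + 1 = j + 3 := rfl
    have a3 : j + 1 + 2 = j + 3 := rfl
    rw [a1, a2] at e1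
    rw [a3] at ih2
    rw [a1, e1]
    have key : 2 * Real.cos (((j + 4 : ℕ) : ℝ) * θ) =
        (2 * Real.cos θ) * (2 * Real.cos (((j + 3 : ℕ) : ℝ) * θ)) -
          2 * Real.cos (((j + 2 : ℕ) : ℝ) * θ) := by
      have b1 : ((j + 4 : ℕ) : ℝ) * θ = ((j + 3 : ℕ) : ℝ) * θ + θ := by push_cast; ring
      have b2 : ((j + 2 : ℕ) : ℝ) * θ = ((j + 3 : ℕ) : ℝ) * θ - θ := by push_cast; ring
      rw [b1, b2, Real.cos_add, Real.cos_sub]
      ring
    rw [key, ← ih2, ← ih1, ← hθ]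
    linear_combination -e2

lemma minFac_pp {p j : ℕ} (hp : p.Prime) (hj : j ≠ 0) : (p ^ j).minFac = p :=
  hp.pow_minFac hj

lemma cS_le {N : ℕ} {lam : ℕ → ℝ} (hH : HeckeSeq N lam)
    (hg : ∀ p : ℕ, p.Prime → ¬ p ∣ N → |lam p| ≤ 2)
    (hb : ∀ p : ℕ, p.Prime → p ∣ N → |lam p| ≤ 1) {p j : ℕ} (hp : p.Prime) (hj : 0 < j) :
    |cS N lam (p ^ j)| ≤ 2 := by
  unfold cS
  rw [minFac_pp hp hj.ne']
  by_cases hpN : p ∣ N
  · rw [if_neg (fun h => h.2 hpN), sub_zero, lam_pow_bad hH hp hpN, abs_pow]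
    calc |lam p| ^ j ≤ 1 := pow_le_one₀ (abs_nonneg _) (hb p hp hpN)
      _ ≤ 2 := by norm_num
  · by_cases hj1 : j = 1
    · subst hj1
      rw [if_neg, sub_zero, pow_one]
      · exact hg p hp hpN
      · rintro ⟨h, -⟩
        have h1 := (Nat.pow_dvd_pow_iff_le_right hp.one_lt).mp h
        omega
    · obtain ⟨i, rfl⟩ : ∃ i, j = i + 2 := ⟨j - 2, by omega⟩
      have hd : p ^ 2 ∣ p ^ (i + 2) := pow_dvd_pow p (by omega)
      have hq : p ^ (i + 2) / p ^ 2 = p ^ i := by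
        rw [pow_add, Nat.mul_div_cancel _ (pow_pos hp.pos 2)]
      rw [if_pos ⟨hd, hpN⟩, hq]
      have h2 := hg p hp hpN
      have h3 : -1 ≤ lam p / 2 ∧ lam p / 2 ≤ 1 := by
        rw [abs_le] at h2
        constructor <;> linarith [h2.1, h2.2]
      have hθ : lam p = 2 * Real.cos (Real.arccos (lam p / 2)) := by
        rw [Real.cos_arccos h3.1 h3.2]
        ring
      rw [diff_good hH hp hpN hθ, abs_mul, abs_two]
      have := Real.abs_cos_le_one (((i + 2 : ℕ) : ℝ) * Real.arccos (lam p / 2))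
      linarith

lemma ram_of {N : ℕ} {lam : ℕ → ℝ} (hH : HeckeSeq N lam)
    (hg : ∀ p : ℕ, p.Prime → ¬ p ∣ N → |lam p| ≤ 2)
    (hb : ∀ p : ℕ, p.Prime → p ∣ N → |lam p| ≤ 1) {q : ℕ} (χ : DirichletCharacter ℂ q) (n : ℕ) :
    ‖χ (n : ZMod q) * (cS N lam n : ℂ) * (ArithmeticFunction.vonMangoldt n : ℂ)‖ ≤
      ((2 : ℕ) : ℝ) * ArithmeticFunction.vonMangoldt n := by
  have h0 : (0 : ℝ) ≤ ArithmeticFunction.vonMangoldt n := ArithmeticFunction.vonMangoldt_nonneg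
  by_cases hL : ArithmeticFunction.vonMangoldt n = 0
  · rw [hL]
    simp
  · have h1 : IsPrimePow n := ArithmeticFunction.vonMangoldt_ne_zero_iff.mp hL
    obtain ⟨p, j, hp, hj, rfl⟩ := (isPrimePow_nat_iff _).mp h1
    have h2 := cS_le hH hg hb hp hj
    rw [norm_mul, norm_mul, Complex.norm_real, Complex.norm_real, Real.norm_eq_abs,
      Real.norm_of_nonneg h0]
    refine mul_le_mul_of_nonneg_right ?_ h0
    calc ‖χ ((p ^ j : ℕ) : ZMod q)‖ * |cS N lam (p ^ j)| ≤ 1 * 2 :=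
          mul_le_mul (χ.norm_le_one _) h2 (abs_nonneg _) zero_le_one
      _ = ((2 : ℕ) : ℝ) := by norm_num

/-! ### the functional equation -/

lemma GG_conj (k : ℤ) {N Q : ℝ} (hN : 0 ≤ N) (hQ : 0 ≤ Q) (s : ℂ) :
    GG k N Q ((starRingEnd ℂ) s) = (starRingEnd ℂ) (GG k N Q s) := by
  unfold GG
  rw [map_mul, ← Complex.Gamma_conj]
  congr 1
  · have h : (((Real.sqrt N * Q / (2 * Real.pi) : ℝ)) : ℂ).arg ≠ Real.pi := by
      rw [Complex.arg_ofReal_of_nonneg (by positivity)]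
      exact Real.pi_pos.ne
    rw [Complex.cpow_conj _ _ h, Complex.conj_ofReal]
  · congr 1
    rw [map_add, map_div₀, map_sub, map_intCast, map_one, Complex.conj_ofNat]

lemma FE2_conj {k : ℤ} {N Q : ℝ} (hN : 0 ≤ N) (hQ : 0 ≤ Q) {F : ℂ → ℂ} (h : FE2 k N Q F) :
    FE2 k N Q (fun s => (starRingEnd ℂ) (F ((starRingEnd ℂ) s))) := by
  obtain ⟨h1, ⟨w, hw, h2⟩, h3⟩ := h
  refine ⟨?_, ⟨(starRingEnd ℂ) w, by rw [RCLike.norm_conj]; exact hw, fun s hs => ?_⟩,
    fun a b => ?_⟩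
  · intro s
    have := (h1 ((starRingEnd ℂ) s)).conj_conj
    rw [Complex.conj_conj] at this
    exact this
  · have e := h2 ((starRingEnd ℂ) s) (by rw [Complex.conj_im]; exact neg_ne_zero.mpr hs)
    rw [Complex.conj_conj, GG_conj k hN hQ] at e
    have e' := congrArg (starRingEnd ℂ) e
    rw [map_mul, Complex.conj_conj, map_mul, Complex.conj_conj] at e'
    rw [e']
    have e2 : (starRingEnd ℂ) (1 - (starRingEnd ℂ) s) = 1 - s := by
      rw [map_sub, map_one, Complex.conj_conj]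
    have e3 : GG k N Q (1 - (starRingEnd ℂ) s) = (starRingEnd ℂ) (GG k N Q (1 - s)) := by
      rw [← GG_conj k hN hQ, map_sub, map_one]
    rw [e3, map_mul (starRingEnd ℂ) ((starRingEnd ℂ) (GG k N Q (1 - s))), Complex.conj_conj,
      Complex.conj_conj, e2]
  · obtain ⟨C, hC⟩ := h3 a b
    refine ⟨C, fun s a1 a2 a3 => ?_⟩
    have e := hC ((starRingEnd ℂ) s) (by rw [Complex.conj_re]; exact a1)
      (by rw [Complex.conj_re]; exact a2) (by rw [Complex.conj_im, abs_neg]; exact a3)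
    rw [GG_conj k hN hQ] at e
    rw [norm_mul] at e ⊢
    rw [RCLike.norm_conj] at e ⊢
    exact e

lemma FE2_lev {k : ℤ} {N Q : ℝ} {F : ℂ → ℂ} (h : FE2 k N Q F) : FE2 k 1 (Real.sqrt N * Q) F := by
  have hG : ∀ s, GG k N Q s = GG k 1 (Real.sqrt N * Q) s := by
    intro s
    unfold GG
    rw [Real.sqrt_one, one_mul]
  obtain ⟨h1, ⟨w, hw, h2⟩, h3⟩ := h
  refine ⟨h1, ⟨w, hw, fun s hs => ?_⟩, fun a b => ?_⟩
  · rw [← hG, ← hG]
    exact h2 s hs
  · obtain ⟨C, hC⟩ := h3 a b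
    refine ⟨C, fun s h1 h2 h3 => ?_⟩
    rw [← hG]
    exact hC s h1 h2 h3

/-! ### goodness -/

lemma logC_of {Q : ℝ} (hQ : 1 ≤ Q) : LogC (fun t => Real.log (Q * t)) := by
  have hQ0 : 0 < Q := by linarith
  refine ⟨fun x y hx hxy => ?_, fun x hx => ?_, fun x y hx hxy => ?_⟩
  · exact Real.log_le_log (by positivity) (mul_le_mul_of_nonneg_left hxy hQ0.le)
  · refine Real.log_le_log (by linarith) ?_
    nlinarith
  · have hx0 : 0 < x := by linarith
    have hy0 : 0 < y := by linarith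
    rw [Real.log_mul hQ0.ne' hy0.ne', Real.log_mul hQ0.ne' hx0.ne', Real.log_div hy0.ne' hx0.ne']
    linarith

theorem good_tw {N : ℕ} (hN : 0 < N) {lam : ℕ → ℝ} (hH : HeckeSeq N lam) (hR : RSLim lam) :
    ∃ A : ℝ, 1 ≤ A ∧ ∀ (q : ℕ) [NeZero q] (χ : DirichletCharacter ℂ q) (F : ℂ → ℂ),
      FE2 2 N q F →
      (∀ s : ℂ, 1 < s.re → F s = ∑' n : ℕ, χ (n : ZMod q) * (lam n : ℂ) * (n : ℂ) ^ (-s)) →
      GoodH ((2 : ℕ) : ℝ) A (fun t => Real.log ((Real.sqrt N * q) * t)) F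
        (fun n => χ (n : ZMod q) * (cS N lam n : ℂ) * (ArithmeticFunction.vonMangoldt n : ℂ)) := by
  have hN1 : (1 : ℝ) ≤ N := by exact_mod_cast hN
  obtain ⟨A1, hA1, d1, d2, d3⟩ := p_dir N hN lam hH hR
  obtain ⟨A2, hA2, hE⟩ := Pool.Agent.W440.LV.t_feU 2 (by norm_num) A1 hA1
  refine ⟨max A1 A2, le_max_of_le_left hA1, ?_⟩
  intro q _ χ F hF hser
  have hq1 : (1 : ℝ) ≤ q := by exact_mod_cast Nat.one_le_iff_ne_zero.mpr (NeZero.ne q)
  have hsN : 1 ≤ Real.sqrt N := Real.one_le_sqrt.2 hN1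
  have hQ1 : 1 ≤ Real.sqrt N * q := by
    calc (1 : ℝ) = 1 * 1 := (mul_one 1).symm
      _ ≤ _ := mul_le_mul hsN hq1 zero_le_one (by linarith)
  obtain ⟨e1, e2, e3, e4, e5, e6⟩ := d3 q χ F hser
  have hz1 : ∀ s : ℂ, s.re = 1 → s.im ≠ 0 → F s ≠ 0 := p_nzr N hN lam hH hR q χ F hF.diff hser
  have hz2 : ∀ s : ℂ, 1 ≤ s.re → 1 ≤ |s.im| → F s ≠ 0 := by
    intro s h1 h2
    rcases eq_or_lt_of_le h1 with h | h
    · refine hz1 s h.symm ?_
      intro h0
      rw [h0, abs_zero] at h2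
      linarith
    · exact e2 s h
  obtain ⟨g1, g2, g3, g4⟩ := hE (Real.sqrt N * q) hQ1 F (FE2_lev hF)
    (fun s hs => e4 s (by linarith)) hz2
  have hAmax : 0 < max A1 A2 := lt_max_of_lt_left (by linarith)
  have hnorm : ∀ n : ℕ, ‖χ (n : ZMod q) * (cS N lam n : ℂ) *
      (ArithmeticFunction.vonMangoldt n : ℂ)‖ * (n : ℝ) ^ (-(7 / 4) : ℝ) ≤
      ArithmeticFunction.vonMangoldt n * |cS N lam n| * (n : ℝ) ^ (-(3 / 2) : ℝ) := by
    intro n
    have h2 : (0 : ℝ) ≤ ArithmeticFunction.vonMangoldt n := ArithmeticFunction.vonMangoldt_nonneg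
    rcases Nat.eq_zero_or_pos n with h0 | h0
    · subst h0
      simp
    · have hn1 : (1 : ℝ) ≤ n := by exact_mod_cast h0
      rw [norm_mul, norm_mul, Complex.norm_real, Complex.norm_real, Real.norm_eq_abs,
        Real.norm_of_nonneg h2]
      refine mul_le_mul ?_ (Real.rpow_le_rpow_of_exponent_le hn1 (by norm_num)) (by positivity)
        (by positivity)
      calc ‖χ (n : ZMod q)‖ * |cS N lam n| * ArithmeticFunction.vonMangoldt n ≤
          1 * |cS N lam n| * ArithmeticFunction.vonMangoldt n := by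
            gcongr
            exact χ.norm_le_one _
        _ = _ := by ring
  have hsm : Summable (fun n : ℕ => ‖χ (n : ZMod q) * (cS N lam n : ℂ) *
      (ArithmeticFunction.vonMangoldt n : ℂ)‖ * (n : ℝ) ^ (-(7 / 4) : ℝ)) :=
    Summable.of_nonneg_of_le (fun n => by positivity) hnorm d1
  refine ⟨fun s _ => hF.diff.analyticAt s, ?_, ?_, ?_, g2, g3, ?_, hsm, ?_, ?_, ?_⟩
  · intro s h1 h2 h3
    refine (g1 s h1 h2 h3).trans ?_
    have hb : 1 ≤ Real.sqrt N * q * s.im := by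
      calc (1 : ℝ) = 1 * 1 := (mul_one 1).symm
        _ ≤ _ := mul_le_mul hQ1 h3 zero_le_one (by linarith)
    have hpos : 0 < Real.sqrt N * q * s.im := by linarith
    have h4 : Real.exp (max A1 A2 * Real.log (Real.sqrt N * q * s.im)) =
        (Real.sqrt N * q * s.im) ^ (max A1 A2) := by
      rw [Real.rpow_def_of_pos hpos, mul_comm (Real.log _)]
    rw [h4]
    exact mul_le_mul (le_max_right _ _)
      (Real.rpow_le_rpow_of_exponent_le hb (le_max_right _ _)) (by positivity) hAmax.le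
  · intro t _
    refine le_trans ?_ (e5 (⟨2, t⟩ : ℂ) (le_refl _))
    exact inv_anti₀ (by linarith) (le_max_left _ _)
  · intro s h1 h2
    exact hz2 s h1 (h2.trans (le_abs_self _))
  · intro n hn
    interval_cases n <;> simp
  · exact (Summable.tsum_le_tsum hnorm hsm d1).trans (d2.trans (le_max_left _ _))
  · intro s h1 _
    exact e3 s h1
  · intro s h1 h2 h3 h4
    have h5 := g4 s h1 h2 h3 h4
    have h6 : (((2 : ℕ) : ℝ) * Real.log (Real.sqrt N * q * s.im) : ℝ) =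
        2 * Real.log (Real.sqrt N * q * s.im) := by norm_num
    rw [h6]
    exact h5.trans (le_max_right _ _)

/-! ### the theorem -/

theorem isNewf_of {N : ℕ} {f : CuspForm (Gamma0 N : Subgroup (GL (Fin 2) ℝ)) 2} {w : ℝ}
    (hf : IsForm N f w) : IsNewf N 2 f w := by
  refine ⟨hf.one, hf.real, hf.mul, fun p j hp => ?_, hf.sign, fun τ τ' h => ?_⟩
  · have := hf.pow p j hp
    unfold coef at this
    rw [this]
    norm_num
  · rw [hf.fricke τ τ' h]
    have hN : ((Real.sqrt N : ℝ) : ℂ) ^ 2 = N := by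
      rw [← Complex.ofReal_pow, Real.sq_sqrt (Nat.cast_nonneg _), Complex.ofReal_natCast]
    have e : (((Real.sqrt N : ℝ) : ℂ) * (τ : ℂ) / Complex.I) ^ (2 : ℤ) =
        -((N : ℂ) * (τ : ℂ) ^ 2) := by
      have : (((Real.sqrt N : ℝ) : ℂ) * (τ : ℂ) / Complex.I) ^ (2 : ℤ) =
          (((Real.sqrt N : ℝ) : ℂ) * (τ : ℂ) / Complex.I) ^ 2 := rfl
      rw [this, div_pow, mul_pow, hN, Complex.I_sq]
      ring
    rw [e]
    ring

lemma lamf_le {N : ℕ} {f : CuspForm (Gamma0 N : Subgroup (GL (Fin 2) ℝ)) 2} {p : ℕ}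
    (hp : p.Prime) {c : ℝ} (h : ‖coef f p‖ ≤ c * Real.sqrt p) : |lamf f p| ≤ c := by
  have hp0 : (0 : ℝ) < p := by exact_mod_cast hp.pos
  have hs : 0 < Real.sqrt p := Real.sqrt_pos.mpr hp0
  unfold lamf
  have e : (p : ℝ) ^ ((((2 : ℤ) : ℝ) - 1) / 2) = Real.sqrt p := by
    rw [Real.sqrt_eq_rpow]
    norm_num
  rw [e, abs_div, abs_of_pos hs, div_le_iff₀ hs]
  exact (Complex.abs_re_le_norm _).trans h

theorem tw_of (h1 : S_inv) (h2 : S_invex) : S_tw := by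
  intro N _ f w hf q _ χ hχ hqN
  have hf' := isNewf_of hf
  have hN : 0 < N := Nat.pos_of_ne_zero (NeZero.ne N)
  have hN1 : (1 : ℝ) ≤ N := by exact_mod_cast hN
  have hq1 : (1 : ℝ) ≤ q := by exact_mod_cast Nat.one_le_iff_ne_zero.mpr (NeZero.ne q)
  have hQ1 : 1 ≤ Real.sqrt N * q := by
    calc (1 : ℝ) = 1 * 1 := (mul_one 1).symm
      _ ≤ _ := mul_le_mul (Real.one_le_sqrt.2 hN1) hq1 zero_le_one (by positivity)
  have hH := W388.heckeSeq_lamf hf'
  have hR := p_rs N 2 (by norm_num) f w hf'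
  obtain ⟨A3, hA3, d1, d2, d3⟩ := p_dir N hN (lamf f) hH hR
  have hsum : ∀ (q : ℕ) [NeZero q] (χ : DirichletCharacter ℂ q) (s : ℂ), 1 < s.re →
      Summable (fun n : ℕ => ‖χ (n : ZMod q) * (lamf f n : ℂ) * (n : ℂ) ^ (-s)‖) := by
    intro q _ χ s hs
    exact (d3 q χ (fun s => ∑' n : ℕ, χ (n : ZMod q) * (lamf f n : ℂ) * (n : ℂ) ^ (-s))
      (fun _ _ => rfl)).1 s hs
  obtain ⟨F, hF, hser⟩ := W388.exists_twist Pool.Agent.W440.TW.t_twist
    Pool.Agent.W108.TW.t_mellin (by norm_num) hf' hsum q χ hχ hqN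
  obtain ⟨A, hA, hgood⟩ := good_tw hN hH hR
  have hFc := FE2_conj (Nat.cast_nonneg N) (Nat.cast_nonneg q) hF
  set F' : ℂ → ℂ := fun s => (starRingEnd ℂ) (F ((starRingEnd ℂ) s)) with hF'
  have hser' : ∀ s : ℂ, 1 < s.re →
      F' s = ∑' n : ℕ, χ⁻¹ (n : ZMod q) * (lamf f n : ℂ) * (n : ℂ) ^ (-s) := by
    intro s hs
    show (starRingEnd ℂ) (F ((starRingEnd ℂ) s)) = _
    rw [hser _ (by rw [Complex.conj_re]; exact hs), Complex.conj_tsum]
    refine tsum_congr fun n => ?_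
    rw [map_mul, map_mul, Complex.conj_ofReal]
    have e1 : (starRingEnd ℂ) (χ (n : ZMod q)) = χ⁻¹ (n : ZMod q) := MulChar.star_apply' χ _
    have e2 : (starRingEnd ℂ) ((n : ℂ) ^ (-(starRingEnd ℂ) s)) = (n : ℂ) ^ (-s) := by
      have h : ((n : ℂ)).arg ≠ Real.pi := by
        rw [Complex.natCast_arg]
        exact Real.pi_pos.ne
      rw [← map_neg, Complex.cpow_conj _ _ h, Complex.conj_conj, Complex.conj_natCast]
    rw [e1, e2]
  have hg : ∀ p : ℕ, p.Prime → ¬ p ∣ N → |lamf f p| ≤ 2 := fun p hp hpN =>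
    lamf_le hp (hf.good p hp hpN)
  have hb : ∀ p : ℕ, p.Prime → p ∣ N → |lamf f p| ≤ 1 := fun p hp hpN =>
    lamf_le hp (by rw [one_mul]; exact hf.bad p hp hpN)
  have G1 := hgood q χ F hF hser
  have G2 := hgood q χ⁻¹ F' hFc hser'
  set lam : ℕ → ℂ := fun n : ℕ => χ (n : ZMod q) * (lamf f n : ℂ) with hlam
  have hterm : ∀ (s : ℂ) (n : ℕ), LSeries.term lam s n =
      χ (n : ZMod q) * (lamf f n : ℂ) * (n : ℂ) ^ (-s) := by
    intro s n
    unfold LSeries.term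
    split_ifs with h0
    · rw [h0, hH.zero]
      simp
    · rw [Complex.cpow_neg, div_eq_mul_inv]
  have hLs : ∀ s : ℂ, 1 < s.re → LSeriesSummable lam s := by
    intro s hs
    unfold LSeriesSummable
    exact (hsum q χ s hs).of_norm.congr fun n => (hterm s n).symm
  have hLe : ∀ s : ℂ, 1 < s.re → F s = LSeries lam s := by
    intro s hs
    rw [hser s hs]
    exact tsum_congr fun n => (hterm s n).symm
  have hl1 : lam 1 = 1 := by
    show χ ((1 : ℕ) : ZMod q) * (lamf f 1 : ℂ) = 1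
    rw [hH.one]
    simp
  obtain ⟨b, -, hbI⟩ := h2 lam hl1
  obtain ⟨sb, hbs⟩ := h1 2 A _ F _ lam b (by norm_num) G1 (ram_of hH hg hb χ) hl1 hLs hLe hbI
  exact ⟨A, _, F, F', _, _, b, ⟨by norm_num, hA, logC_of hQ1, G1, G2, ram_of hH hg hb χ,
    ram_of hH hg hb χ⁻¹, fun _ => rfl, hF.diff, fun s _ => by rw [pow_zero, one_mul], Or.inl rfl,
    sb, hbs⟩, hF, hbI, hLs, hLe⟩

end Pool.Agent.N97.GX
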